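import Pool.Agent.H856.AQ.Perf

/-!
# Additive functions of one variable (Laurent polynomials in Frobenius)
-/

set_option autoImplicit false
set_option linter.unusedSectionVars false
set_option linter.style.haveILetI false

namespace Pool.Agent.H856.AQ

open MvPolynomial

variable {K : Type*} [Field K] [IsAlgClosed K] (p : ℕ) [hp : Fact p.Prime] [CharP K p]

/-- the function `∑ c_s x ^ (p ^ s)`, `s` an integer -/
noncomputable def ev (c : ℤ →₀ K) (x : K) : K := c.sum fun s a => a * fr K p s x

/-- additive functions given by Laurent polynomials in Frobenius -/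
def IsAdd (A : K → K) : Prop := ∃ c : ℤ →₀ K, ∀ x, A x = ev p c x

variable {p}

theorem ev_single (s : ℤ) (a x : K) : ev p (Finsupp.single s a) x = a * fr K p s x := by
  unfold ev
  rw [Finsupp.sum_single_index (by rw [zero_mul])]

theorem ev_add (c d : ℤ →₀ K) (x : K) : ev p (c + d) x = ev p c x + ev p d x := by
  unfold ev
  exact Finsupp.sum_add_index' (fun _ => by rw [zero_mul]) (fun _ _ _ => by rw [add_mul])

theorem ev_zero (x : K) : ev p (0 : ℤ →₀ K) x = 0 := by
  simp [ev]

theorem isAdd_zero : IsAdd p (fun _ : K => (0 : K)) := ⟨0, fun x => by rw [ev_zero]⟩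

theorem isAdd_single (s : ℤ) (a : K) : IsAdd p (fun x : K => a * fr K p s x) :=
  ⟨Finsupp.single s a, fun x => by rw [ev_single]⟩

theorem isAdd_id : IsAdd p (fun x : K => x) :=
  ⟨Finsupp.single 0 1, fun x => by rw [ev_single, fr_zero, one_mul]⟩

theorem IsAdd.add {A B : K → K} (hA : IsAdd p A) (hB : IsAdd p B) :
    IsAdd p (fun x => A x + B x) := by
  obtain ⟨c, hc⟩ := hA
  obtain ⟨d, hd⟩ := hB
  exact ⟨c + d, fun x => by simp only [ev_add, hc, hd]⟩

theorem IsAdd.sum {α : Type*} (s : Finset α) {A : α → K → K} (hA : ∀ a ∈ s, IsAdd p (A a)) :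
    IsAdd p (fun x => ∑ a ∈ s, A a x) := by
  classical
  induction s using Finset.induction_on with
  | empty => simpa using isAdd_zero (p := p) (K := K)
  | insert a s ha ih =>
    have h1 := (hA a (Finset.mem_insert_self _ _)).add
      (ih fun b hb => hA b (Finset.mem_insert_of_mem hb))
    simpa [Finset.sum_insert ha] using h1

theorem IsAdd.congr {A B : K → K} (hA : IsAdd p A) (h : ∀ x, B x = A x) : IsAdd p B := by
  have : B = A := funext h
  rwa [this]

theorem IsAdd.twist {A : K → K} (hA : IsAdd p A) (a : K) (s : ℤ) :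
    IsAdd p (fun x => a * fr K p s (A x)) := by
  obtain ⟨c, hc⟩ := hA
  have h1 : IsAdd p (fun x => ∑ t ∈ c.support, (a * fr K p s (c t)) *
      fr K p (s + t) x) :=
    IsAdd.sum _ fun t _ => isAdd_single _ _
  refine h1.congr fun x => ?_
  rw [hc, ev, Finsupp.sum, map_sum, Finset.mul_sum]
  refine Finset.sum_congr rfl fun t _ => ?_
  rw [map_mul, fr_add]
  ring

theorem IsAdd.comp {A B : K → K} (hA : IsAdd p A) (hB : IsAdd p B) :
    IsAdd p (fun x => A (B x)) := by
  obtain ⟨c, hc⟩ := hA
  have h1 : IsAdd p (fun x => ∑ t ∈ c.support, c t * fr K p t (B x)) :=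
    IsAdd.sum _ fun t _ => hB.twist _ _
  exact h1.congr fun x => by rw [hc, ev, Finsupp.sum]

theorem IsAdd.map_add {A : K → K} (hA : IsAdd p A) (x y : K) : A (x + y) = A x + A y := by
  obtain ⟨c, hc⟩ := hA
  simp only [hc, ev, Finsupp.sum, _root_.map_add, mul_add, Finset.sum_add_distrib]

theorem IsAdd.map_zero {A : K → K} (hA : IsAdd p A) : A 0 = 0 := by
  obtain ⟨c, hc⟩ := hA
  simp only [hc, ev, Finsupp.sum, _root_.map_zero, mul_zero, Finset.sum_const_zero]

theorem IsAdd.map_sum {A : K → K} (hA : IsAdd p A) {α : Type*} (s : Finset α) (f : α → K) :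
    A (∑ a ∈ s, f a) = ∑ a ∈ s, A (f a) := by
  classical
  induction s using Finset.induction_on with
  | empty => simp [hA.map_zero]
  | insert a s ha ih => rw [Finset.sum_insert ha, hA.map_add, ih, Finset.sum_insert ha]

variable {ι : Type*}

theorem IsAdd.perf {A : K → K} (hA : IsAdd p A) {F : (ι → K) → K} (hF : IsPerf p F) :
    IsPerf p (fun x => A (F x)) := by
  obtain ⟨c, hc⟩ := hA
  have h1 : IsPerf p (fun x => ∑ t ∈ c.support, c t * fr K p t (F x)) :=
    IsPerf.sum _ fun t _ => (isPerf_const _).mul (hF.twist t)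
  have : (fun x => A (F x)) =
      fun x => ∑ t ∈ c.support, c t * fr K p t (F x) := by
    funext x
    rw [hc, ev, Finsupp.sum]
  rwa [this]

/-! ## independence of the powers of Frobenius -/

theorem fr_injective : Function.Injective (fun s : ℤ => fr K p s) := by
  have key : ∀ n : ℕ, n ≠ 0 → ∃ x : K, x ^ p ^ n ≠ x := by
    intro n hn
    by_contra h
    push Not at h
    have h1 : (Polynomial.X ^ p ^ n - Polynomial.X : Polynomial K) ≠ 0 :=
      FiniteField.X_pow_card_sub_X_ne_zero K (Nat.one_lt_pow hn hp.out.one_lt)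
    classical
    have h2 : (Set.univ : Set K) ⊆ ((Polynomial.X ^ p ^ n - Polynomial.X : Polynomial K).roots.toFinset : Set K) := by
      intro x _
      simp only [Finset.mem_coe, Multiset.mem_toFinset]
      rw [Polynomial.mem_roots h1]
      simp [h x]
    exact Set.infinite_univ (Set.Finite.subset (Finset.finite_toSet _) h2)
  have key2 : ∀ s t : ℤ, s < t → fr K p s ≠ fr K p t := by
    intro s t hst h
    obtain ⟨n, hn⟩ := Int.eq_ofNat_of_zero_le (sub_nonneg.2 hst.le)
    have hn0 : n ≠ 0 := by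
      rintro rfl
      simp at hn
      omega
    obtain ⟨x, hx⟩ := key n hn0
    apply hx
    rw [← fr_natCast, ← hn]
    have h1 : fr K p (t - s) x = fr K p (-s) (fr K p t x) := by
      rw [← fr_add]
      congr 1
      ring_nf
    rw [h1, ← h, fr_self_neg]
  intro s t hst
  rcases lt_trichotomy s t with h | h | h
  · exact absurd hst (key2 s t h)
  · exact h
  · exact absurd hst.symm (key2 t s h)

theorem ev_injective {c : ℤ →₀ K} (h : ∀ x, ev p c x = 0) : c = 0 := by
  have h1 := linearIndependent_monoidHom K K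
  have h2 : Function.Injective (fun s : ℤ => ((fr K p s : K ≃+* K) : K →* K)) := by
    intro s t hst
    apply fr_injective (p := p) (K := K)
    ext x
    exact DFunLike.congr_fun hst x
  have h3 := h1.comp _ h2
  rw [linearIndependent_iff] at h3
  apply h3 c
  ext x
  rw [Finsupp.linearCombination_apply, Finsupp.sum, Finset.sum_apply]
  have := h x
  rw [ev, Finsupp.sum] at this
  simpa using this

/-! ## the adjoint -/

/-- the adjoint `∑ σ ^ (-s) ∘ c_s` -/
noncomputable def adj (p : ℕ) [Fact p.Prime] [CharP K p] (c : ℤ →₀ K) : ℤ →₀ K :=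
  Finsupp.onFinset (c.support.image Neg.neg) (fun t => fr K p t (c (-t))) (by
    intro t ht
    rw [Finset.mem_image]
    refine ⟨-t, ?_, neg_neg t⟩
    rw [Finsupp.mem_support_iff]
    intro h
    apply ht
    rw [h, map_zero])

theorem ev_adj (c : ℤ →₀ K) (y : K) :
    ev p (adj p c) y = ∑ s ∈ c.support, fr K p (-s) (c s * y) := by
  unfold ev
  rw [Finsupp.sum_of_support_subset (adj p c) (s := c.support.image Neg.neg)
    Finsupp.support_onFinset_subset _ (fun _ _ => by rw [zero_mul]),
    Finset.sum_image (fun _ _ _ _ h => neg_injective h)]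
  refine Finset.sum_congr rfl fun s _ => ?_
  show fr K p (-s) (c (- -s)) * _ = _
  rw [neg_neg, map_mul]

theorem adj_ne_zero {c : ℤ →₀ K} (hc : c ≠ 0) : adj p c ≠ 0 := by
  obtain ⟨s, hs⟩ := Finsupp.ne_iff.1 hc
  intro h
  apply hs
  have h1 : adj p c (-s) = 0 := by rw [h]; rfl
  have h2 : fr K p (-s) (c (- -s)) = 0 := h1
  rw [neg_neg, map_eq_zero_iff _ (fr K p (-s)).injective] at h2
  rw [h2]
  rfl

/-- adjoints -/
theorem IsAdd.exists_adj {A : K → K} (hA : IsAdd p A) :
    ∃ A' : K → K, IsAdd p A' ∧ (A ≠ 0 → A' ≠ 0) ∧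
      ∀ (ι : Type) (F G : (ι → K) → K), IsPerf p F → IsPerf p G →
        Eqv p (fun x => F x * A (G x)) (fun x => G x * A' (F x)) := by
  obtain ⟨c, hc⟩ := hA
  refine ⟨ev p (adj p c), ⟨_, fun _ => rfl⟩, ?_, ?_⟩
  · intro hA0 h
    have hc0 : c ≠ 0 := by
      rintro rfl
      apply hA0
      funext x
      rw [hc, ev_zero]
      rfl
    exact adj_ne_zero hc0 (ev_injective fun x => congrFun h x)
  · intro ι F G hF hG
    have h1 : (fun x => F x * A (G x)) =
        fun x => ∑ s ∈ c.support, fr K p s (G x * fr K p (-s) (c s * F x)) := by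
      funext x
      rw [hc, ev, Finsupp.sum, Finset.mul_sum]
      refine Finset.sum_congr rfl fun s _ => ?_
      rw [map_mul, fr_neg_self]
      ring
    have h2 : (fun x => G x * ev p (adj p c) (F x)) =
        fun x => ∑ s ∈ c.support, G x * fr K p (-s) (c s * F x) := by
      funext x
      rw [ev_adj, Finset.mul_sum]
    rw [h1, h2]
    exact Eqv.sum _ fun s _ => eqv_fr (hG.mul (((isPerf_const _).mul hF).twist _)) s

/-! ## nonzero additive functions are surjective with finite fibres -/

theorem IsAdd.surj_finite {A : K → K} (hA : IsAdd p A) (hA0 : A ≠ 0) :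
    Function.Surjective A ∧ ∀ y, {x | A x = y}.Finite := by
  obtain ⟨c, hc⟩ := hA
  -- a bound for the support
  obtain ⟨S, hS⟩ : ∃ S : ℕ, ∀ s ∈ c.support, -(S : ℤ) ≤ s := by
    refine ⟨c.support.sup Int.natAbs, fun s hs => ?_⟩
    have := Finset.le_sup (f := Int.natAbs) hs
    omega
  set P : Polynomial K := ∑ s ∈ c.support,
    Polynomial.C (c s) * Polynomial.X ^ p ^ (s + S).toNat with hP
  have hPA : ∀ x, P.eval x = A (x ^ p ^ S) := by
    intro x
    rw [hP, Polynomial.eval_finsetSum, hc, ev, Finsupp.sum]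
    refine Finset.sum_congr rfl fun s hs => ?_
    have h1 : ((s + S).toNat : ℤ) = s + S := Int.toNat_of_nonneg (by have := hS s hs; omega)
    rw [Polynomial.eval_mul, Polynomial.eval_C, Polynomial.eval_pow, Polynomial.eval_X,
      ← fr_natCast p, h1, fr_add, fr_natCast]
  have hAS : ∀ x : K, ∃ y : K, y ^ p ^ S = x := by
    intro x
    refine ⟨fr K p (-(S : ℤ)) x, ?_⟩
    rw [← fr_natCast p S, fr_neg_self]
  have hA00 : A 0 = 0 := IsAdd.map_zero (p := p) ⟨c, hc⟩
  have hdeg : ∀ b, 0 < (P - Polynomial.C b).degree := by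
    intro b
    by_contra h
    have h1 := Polynomial.eq_C_of_degree_le_zero (not_lt.1 h)
    apply hA0
    funext x
    obtain ⟨y, rfl⟩ := hAS x
    have h2 := congrArg (Polynomial.eval y) h1
    have h3 := congrArg (Polynomial.eval 0) h1
    rw [Polynomial.eval_sub, Polynomial.eval_C, Polynomial.eval_C, hPA] at h2 h3
    rw [zero_pow (pow_ne_zero _ hp.out.ne_zero), hA00] at h3
    show A _ = 0
    linear_combination h2 - h3
  refine ⟨fun b => ?_, fun b => ?_⟩
  · obtain ⟨y, hy⟩ := IsAlgClosed.exists_root _ (hdeg b).ne'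
    refine ⟨y ^ p ^ S, ?_⟩
    rw [Polynomial.IsRoot.def, Polynomial.eval_sub, Polynomial.eval_C, hPA, sub_eq_zero] at hy
    exact hy
  · classical
    have hne : P - Polynomial.C b ≠ 0 := fun h => by
      have := hdeg b
      rw [h, Polynomial.degree_zero] at this
      exact absurd this (by simp)
    refine Set.Finite.subset ((Set.finite_range fun y : (P - Polynomial.C b).roots.toFinset =>
      (y : K) ^ p ^ S)) ?_
    intro x hx
    obtain ⟨y, rfl⟩ := hAS x
    refine ⟨⟨y, ?_⟩, rfl⟩
    rw [Multiset.mem_toFinset, Polynomial.mem_roots hne, Polynomial.IsRoot.def,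
      Polynomial.eval_sub, Polynomial.eval_C, hPA, sub_eq_zero]
    exact hx

end Pool.Agent.H856.AQ
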