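import Pool.Agent.H856.AQ.Normal

/-!
# Linear terms
-/

set_option autoImplicit false
set_option linter.unusedSectionVars false
set_option linter.style.haveILetI false

namespace Pool.Agent.H856.AQ

open MvPolynomial

variable {K : Type*} [Field K] [IsAlgClosed K] {p : ℕ} [hp : Fact p.Prime] [CharP K p]

/-- additive polynomials, as functions -/
def IsPos (p : ℕ) [Fact p.Prime] [CharP K p] (A : K → K) : Prop :=
  ∃ (n : ℕ) (b : Fin n → K), ∀ x, A x = lin p b x

theorem IsPos.isAdd {A : K → K} (h : IsPos p A) : IsAdd p A := by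
  obtain ⟨n, b, hb⟩ := h
  exact (isAdd_lin b).congr hb

/-- after composition with a power of Frobenius the exponents are nonnegative -/
theorem IsAdd.exists_pos {A : K → K} (hA : IsAdd p A) :
    ∃ S : ℕ, ∀ T : ℕ, S ≤ T → IsPos p (fun x => A (fr K p T x)) := by
  obtain ⟨c, hc⟩ := hA
  obtain ⟨S, hS⟩ := exists_bound c
  refine ⟨S, fun T hT => ⟨2 * T + 1, fun a => c ((a : ℕ) - (T : ℤ)), fun x => ?_⟩⟩
  have hT' : c.support ⊆ Finset.Icc (-(T : ℤ)) T := fun s hs => by
    have := hS hs
    rw [Finset.mem_Icc] at this ⊢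
    omega
  show A (fr K p T x) = _
  rw [hc, ev_eq_sum hT', lin]
  symm
  refine Finset.sum_bij (fun (a : Fin (2 * T + 1)) _ => ((a : ℕ) : ℤ) - T) ?_ ?_ ?_ ?_
  · intro a _
    rw [Finset.mem_Icc]
    have := a.2
    omega
  · intro a _ b _ h
    apply Fin.ext
    omega
  · intro s hs
    rw [Finset.mem_Icc] at hs
    refine ⟨⟨(s + T).toNat, by omega⟩, Finset.mem_univ _, ?_⟩
    show (((s + T).toNat : ℕ) : ℤ) - T = s
    omega
  · intro a _
    rw [← fr_add, sub_add_cancel]

variable {ι : Type}

/-- the symmetric form of a quadratic function of one variable -/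
theorem eqv_sym (c : ℤ →₀ K) (u : ι) : ∃ S : ℕ,
    Eqv p (fun x : ι → K => x u * ev p c (x u)) (fun x => x u * (c 0 * x u +
      ∑ s ∈ Finset.range S, (c ((s : ℤ) + 1) + adj p c ((s : ℤ) + 1)) *
        fr K p ((s : ℤ) + 1) (x u))) := by
  obtain ⟨S, hS⟩ := exists_bound c
  refine ⟨S, ?_⟩
  have h1 : ∀ x : K, ev p c x = c 0 * x + ∑ s ∈ Finset.range S, (c ((s : ℤ) + 1) *
      fr K p ((s : ℤ) + 1) x + c (-((s : ℤ) + 1)) * fr K p (-((s : ℤ) + 1)) x) := by
    intro x
    rw [ev_eq_sum hS]
    clear hS
    induction S with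
    | zero => simp [fr_zero]
    | succ S ih =>
      rw [Finset.sum_range_succ, ← add_assoc, ← ih]
      have h2 : Finset.Icc (-((S + 1 : ℕ) : ℤ)) ((S + 1 : ℕ) : ℤ) =
          insert ((S : ℤ) + 1) (insert (-((S : ℤ) + 1)) (Finset.Icc (-(S : ℤ)) S)) := by
        ext s
        simp only [Finset.mem_insert, Finset.mem_Icc]
        push_cast
        omega
      rw [h2, Finset.sum_insert, Finset.sum_insert]
      · ring
      · simp only [Finset.mem_Icc]
        omega
      · simp only [Finset.mem_insert, Finset.mem_Icc]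
        omega
  have h2 : (fun x : ι → K => x u * ev p c (x u)) = fun x => x u * (c 0 * x u) +
      ∑ s ∈ Finset.range S, (x u * (c ((s : ℤ) + 1) * fr K p ((s : ℤ) + 1) (x u)) +
        x u * (c (-((s : ℤ) + 1)) * fr K p (-((s : ℤ) + 1)) (x u))) := by
    funext x
    rw [h1, mul_add, Finset.mul_sum]
    congr 1
    exact Finset.sum_congr rfl fun s _ => by ring
  have h3 : (fun x : ι → K => x u * (c 0 * x u +
      ∑ s ∈ Finset.range S, (c ((s : ℤ) + 1) + adj p c ((s : ℤ) + 1)) *
        fr K p ((s : ℤ) + 1) (x u))) = fun x => x u * (c 0 * x u) +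
      ∑ s ∈ Finset.range S, (x u * (c ((s : ℤ) + 1) * fr K p ((s : ℤ) + 1) (x u)) +
        fr K p ((s : ℤ) + 1) (x u * (c (-((s : ℤ) + 1)) * fr K p (-((s : ℤ) + 1)) (x u)))) := by
    funext x
    rw [mul_add, Finset.mul_sum]
    congr 1
    refine Finset.sum_congr rfl fun s _ => ?_
    have h4 : adj p c ((s : ℤ) + 1) = fr K p ((s : ℤ) + 1) (c (-((s : ℤ) + 1))) := rfl
    rw [map_mul, map_mul, fr_neg_self, h4]
    ring
  rw [h2, h3]
  refine (Eqv.refl _).add (Eqv.sum _ fun s _ => (Eqv.refl _).add (Eqv.symm ?_))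
  exact eqv_fr ((isPerf_proj u).mul ((isPerf_const _).mul ((isPerf_proj u).twist _))) _

/-- the nonnegative form of a quadratic function of one variable -/
theorem eqv_pos {A : K → K} (hA : IsAdd p A) (u : ι) : ∃ B : K → K, IsPos p B ∧
    Eqv p (fun x : ι → K => x u * A (x u)) (fun x => x u * B (x u)) := by
  obtain ⟨c, hc⟩ := hA
  obtain ⟨S, hS⟩ := eqv_sym (p := p) c u
  refine ⟨_, ⟨S + 1, Fin.cons (c 0) (fun s : Fin S => c (((s : ℕ) : ℤ) + 1) +
    adj p c (((s : ℕ) : ℤ) + 1)), fun x => rfl⟩, ?_⟩
  refine (Eqv.of_eq fun x => by rw [hc]).trans (hS.trans (Eqv.of_eq fun x => ?_))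
  rw [lin, Fin.sum_univ_succ]
  simp only [Fin.cons_zero, Fin.cons_succ, Fin.val_zero, Fin.val_succ, Nat.cast_zero, fr_zero]
  rw [Finset.sum_range]
  push_cast
  rfl

/-- skew quadratic functions of one variable are linear -/
theorem eqv_skew {c : ℤ →₀ K} (h : c + adj p c = 0) (u : ι) : ∃ d : K,
    Eqv p (fun x : ι → K => x u * ev p c (x u)) (fun x => d * x u) := by
  obtain ⟨S, hS⟩ := eqv_sym (p := p) c u
  have h0 : ∀ s, c s + adj p c s = 0 := fun s => by
    rw [← Finsupp.add_apply, h]
    rfl
  have h1 : c 0 + c 0 = 0 := by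
    have := h0 0
    have h2 : adj p c 0 = fr K p 0 (c (-0)) := rfl
    rw [h2, neg_zero, fr_zero] at this
    exact this
  have h2 : Eqv p (fun x : ι → K => x u * ev p c (x u)) (fun x => c 0 * x u ^ 2) := by
    refine hS.trans (Eqv.of_eq fun x => ?_)
    rw [Finset.sum_eq_zero fun s _ => by rw [h0, zero_mul]]
    ring
  by_cases hp2 : p = 2
  · subst hp2
    refine ⟨fr K 2 (-1) (c 0), h2.trans ?_⟩
    have h3 := eqv_fr (p := 2) ((isPerf_const (ι := ι) (fr K 2 (-1) (c 0))).mul (isPerf_proj u)) 1
    refine Eqv.trans (Eqv.of_eq fun x => ?_) h3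
    rw [map_mul, fr_neg_self, fr_one]
  · refine ⟨0, h2.trans (Eqv.of_eq fun x => ?_)⟩
    have h3 : (2 : K) ≠ 0 := by
      intro h4
      have h5 : ((2 : ℕ) : K) = 0 := by exact_mod_cast h4
      rw [CharP.cast_eq_zero_iff K p] at h5
      exact hp2 ((Nat.prime_dvd_prime_iff_eq hp.out Nat.prime_two).1 h5)
    have h4 : c 0 = 0 := by
      have h5 : (2 : K) * c 0 = 0 := by rw [two_mul, h1]
      exact (mul_eq_zero.1 h5).resolve_left h3
    rw [h4]
    ring

/-- additive functions are equivalent to linear functions -/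
theorem eqv_linear {A : K → K} (hA : IsAdd p A) : ∃ d : K, ∀ (κ : Type) (T : (κ → K) → K),
    IsPerf p T → Eqv p (fun x => A (T x)) (fun x => d * T x) := by
  obtain ⟨c, hc⟩ := hA
  refine ⟨∑ s ∈ c.support, fr K p (-s) (c s), fun κ T hT => ?_⟩
  have h1 : (fun x => A (T x)) = fun x => ∑ s ∈ c.support, fr K p s (fr K p (-s) (c s) * T x) := by
    funext x
    rw [hc, ev, Finsupp.sum]
    exact Finset.sum_congr rfl fun s _ => by rw [map_mul, fr_neg_self]
  have h2 : (fun x => (∑ s ∈ c.support, fr K p (-s) (c s)) * T x) =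
      fun x => ∑ s ∈ c.support, fr K p (-s) (c s) * T x := by
    funext x
    rw [Finset.sum_mul]
  rw [h1, h2]
  exact Eqv.sum _ fun s _ => eqv_fr ((isPerf_const _).mul hT) s

theorem eqv_const (c : K) : Eqv (ι := ι) p (fun _ => c) (fun _ => 0) := by
  have h1 : ∃ y : K, (Polynomial.X ^ p - Polynomial.X - Polynomial.C c).IsRoot y := by
    apply IsAlgClosed.exists_root
    have h2 : (Polynomial.X ^ p - Polynomial.X - Polynomial.C c : Polynomial K).degree = p := by
      have h3 : (Polynomial.X ^ p - Polynomial.X - Polynomial.C c : Polynomial K) =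
          Polynomial.X ^ p - (Polynomial.X + Polynomial.C c) := by ring
      rw [h3, Polynomial.degree_sub_eq_left_of_degree_lt, Polynomial.degree_X_pow]
      rw [Polynomial.degree_X_pow, Polynomial.degree_X_add_C]
      exact_mod_cast hp.out.one_lt
    rw [h2]
    exact_mod_cast hp.out.ne_zero
  obtain ⟨y, hy⟩ := h1
  refine ⟨fun _ => y, isPerf_const _, fun x => ?_⟩
  simp only [Polynomial.IsRoot.def, Polynomial.eval_sub, Polynomial.eval_pow, Polynomial.eval_X,
    Polynomial.eval_C] at hy
  linear_combination - hy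

/-! ## coverings of affine space -/

/-- finite surjective maps of affine space to itself -/
structure Cov (p : ℕ) [Fact p.Prime] [CharP K p] (φ : (ι → K) → (ι → K)) : Prop where
  perf : ∀ i, IsPerf p (fun x => φ x i)
  surj : Function.Surjective φ
  fin : ∀ y, {x | φ x = y}.Finite

theorem Cov.comp {φ ψ : (ι → K) → (ι → K)} (h : Cov p φ) (h' : Cov p ψ) :
    Cov p (fun x => φ (ψ x)) where
  perf := fun i => (h.perf i).comp h'.perf
  surj := h.surj.comp h'.surj
  fin := fun y => by
    have : {x | φ (ψ x) = y} = ⋃ z ∈ {z | φ z = y}, {x | ψ x = z} := by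
      ext x
      simp
    rw [this]
    exact (h.fin y).biUnion fun z _ => h'.fin z

theorem Isog.cov {S : Finset ι} {φ : (ι → K) → (ι → K)} (h : Isog p S φ) : Cov p φ :=
  ⟨h.perf, h.surj, h.fin⟩

theorem cov_translate (τ : ι → K) : Cov p (fun x : ι → K => x + τ) where
  perf := fun i => (isPerf_proj i).add (isPerf_const (τ i))
  surj := fun y => ⟨y - τ, by simp⟩
  fin := fun y => by
    refine Set.Subsingleton.finite fun a ha b hb => ?_
    have ha' : a + τ = y := ha
    have hb' : b + τ = y := hb
    exact add_right_cancel (ha'.trans hb'.symm)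

theorem sum_inj [Fintype ι] [DecidableEq ι] {r : ℕ} {a b : Fin r → ι}
    (hinj : Function.Injective (Sum.elim a b)) (F : ι → K) :
    ∑ i, F i = ∑ k, F (a k) + ∑ k, F (b k) +
      ∑ i ∈ Finset.univ.filter (fun i => i ∉ Set.range (Sum.elim a b)), F i := by
  classical
  rw [← Finset.sum_filter_add_sum_filter_not Finset.univ (fun i => i ∈ Set.range (Sum.elim a b))]
  congr 1
  have h1 : Finset.univ.filter (fun i => i ∈ Set.range (Sum.elim a b)) =
      Finset.univ.image (Sum.elim a b) := by
    ext i
    simp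
  rw [h1, Finset.sum_image (fun _ _ _ _ h => hinj h), Fintype.sum_sum_type]
  rfl

/-- **The normal form with linear terms.** -/
theorem affine_normal [Fintype ι] [DecidableEq ι] {q l : (ι → K) → K}
    (hq : QuadOn p Finset.univ q) (hl : LinOn p Finset.univ l) :
    ∃ φ : (ι → K) → (ι → K), Cov p φ ∧
      ((∃ (t : ι) (c : K) (N : (ι → K) → K), c ≠ 0 ∧ IsPerf p N ∧
          (∀ x y : ι → K, (∀ i, i ≠ t → x i = y i) → N x = N y) ∧
          Eqv p (fun x => q (φ x) + l (φ x)) (fun x => c * x t + N x)) ∨
        ∃ (r : ℕ) (a b : Fin r → ι) (M : Fin r → K → K) (g : (ι → K) → K),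
          Function.Injective (Sum.elim a b) ∧ (∀ i, IsPos p (M i)) ∧ (∀ i, M i ≠ 0) ∧
          ((∀ x, g x = 0) ∨ ∃ u, u ∉ Set.range (Sum.elim a b) ∧ ∃ M₀, IsPos p M₀ ∧
            ∀ x, g x = x u * M₀ (x u)) ∧
          Eqv p (fun x => q (φ x) + l (φ x)) (fun x => ∑ i, x (a i) * M i (x (b i)) + g x)) := by
  classical
  obtain ⟨φ₀, hφ₀, r, a, b, M, g, hN⟩ := normal _ Finset.univ rfl q hq
  -- the linear terms
  obtain ⟨C, hC, hlC⟩ := hl.comp hφ₀.lin
  choose d hd using fun i => eqv_linear (hC i)
  have hlin : Eqv p (fun x => l (φ₀ x)) (fun x : ι → K => ∑ i, d i * x i) :=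
    (Eqv.of_eq hlC).trans (Eqv.sum _ fun i _ => hd i ι (fun x => x i) (isPerf_proj i))
  -- normalization of `g`
  obtain ⟨g', d', hg', htot⟩ : ∃ (g' : (ι → K) → K) (d' : ι → K),
      ((∀ x, g' x = 0) ∨ ∃ u, u ∉ Set.range (Sum.elim a b) ∧ ∃ c : ℤ →₀ K, c + adj p c ≠ 0 ∧
        ∀ x, g' x = x u * ev p c (x u)) ∧
      Eqv p (fun x => q (φ₀ x) + l (φ₀ x)) (fun x => (∑ i, x (a i) * M i (x (b i)) + g' x) +
        ∑ i, d' i * x i) := by
    have h0 := hN.eqv.add hlin
    rcases hN.hg with h | ⟨u, _, hu, M₀, ⟨c, hc⟩, hgu⟩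
    · exact ⟨g, d, Or.inl h, h0⟩
    · by_cases hcc : c + adj p c = 0
      · obtain ⟨e, he⟩ := eqv_skew hcc u
        refine ⟨fun _ => 0, Function.update d u (d u + e), Or.inl fun _ => rfl, h0.trans ?_⟩
        have h1 : Eqv p g (fun x => e * x u) :=
          (Eqv.of_eq fun x => by rw [hgu, hc]).trans he
        have h2 : Eqv p (fun x : ι → K => (∑ i, x (a i) * M i (x (b i)) + g x) + ∑ i, d i * x i)
            (fun x => (∑ i, x (a i) * M i (x (b i)) + e * x u) + ∑ i, d i * x i) :=
          ((Eqv.refl _).add h1).add (Eqv.refl _)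
        refine h2.trans (Eqv.of_eq fun x => ?_)
        have h3 : ∀ i, Function.update d u (d u + e) i * x i =
            d i * x i + (if i = u then e * x u else 0) := by
          intro i
          by_cases hi : i = u
          · subst hi
            simp only [Function.update_self, if_true]
            ring
          · simp [hi]
        simp only [h3, Finset.sum_add_distrib, Finset.sum_ite_eq', Finset.mem_univ, if_true]
        ring
      · exact ⟨g, d, Or.inr ⟨u, hu, c, hcc, fun x => by rw [hgu, hc]⟩, h0⟩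
  have hgperf : IsPerf p g' := by
    rcases hg' with h | ⟨u, _, c, _, h⟩
    · have : g' = fun _ => 0 := funext h
      rw [this]
      exact isPerf_const _
    · have : g' = fun x => x u * ev p c (x u) := funext h
      rw [this]
      exact (isPerf_proj u).mul (IsAdd.perf ⟨c, fun _ => rfl⟩ (isPerf_proj u))
  by_cases hfree : ∃ t, t ∉ Set.range (Sum.elim a b) ∧
      (∀ x y : ι → K, (∀ i, i ≠ t → x i = y i) → g' x = g' y) ∧ d' t ≠ 0
  · -- a free variable occurs linearly
    obtain ⟨t, ht, hgt, hdt⟩ := hfree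
    refine ⟨φ₀, hφ₀.cov, Or.inl ⟨t, d' t, fun x => (∑ i, x (a i) * M i (x (b i)) + g' x) +
      ∑ i ∈ Finset.univ.erase t, d' i * x i, hdt, ?_, ?_, ?_⟩⟩
    · exact ((IsPerf.sum _ fun i _ => (isPerf_proj _).mul ((hN.hM i).perf (isPerf_proj _))).add
        hgperf).add (IsPerf.sum _ fun i _ => (isPerf_const _).mul (isPerf_proj _))
    · intro x y hxy
      have e1 : ∀ k, a k ≠ t := fun k h => ht ⟨Sum.inl k, h⟩
      have e2 : ∀ k, b k ≠ t := fun k h => ht ⟨Sum.inr k, h⟩
      have e3 : ∑ i, x (a i) * M i (x (b i)) = ∑ i, y (a i) * M i (y (b i)) :=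
        Finset.sum_congr rfl fun i _ => by rw [hxy _ (e1 i), hxy _ (e2 i)]
      have e4 : ∑ i ∈ Finset.univ.erase t, d' i * x i = ∑ i ∈ Finset.univ.erase t, d' i * y i :=
        Finset.sum_congr rfl fun i hi => by rw [hxy _ (Finset.mem_erase.1 hi).1]
      simp only [e3, e4, hgt x y hxy]
    · refine htot.trans (Eqv.of_eq fun x => ?_)
      rw [← Finset.add_sum_erase Finset.univ _ (Finset.mem_univ t)]
      ring
  · -- the linear terms are removed by a translation
    push Not at hfree
    choose M' hM' hM'0 hM'1 using fun i => (hN.hM i).exists_adj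
    choose α hα using fun k => ((hM' k).surj_finite (hM'0 k (hN.hM0 k))).1 (-(d' (b k)))
    choose β hβ using fun k => ((hN.hM k).surj_finite (hN.hM0 k)).1 (-(d' (a k)))
    let τ₀ : ι → K := Function.extend (Sum.elim a b) (Sum.elim α β) 0
    have hτa : ∀ k, τ₀ (a k) = α k := fun k => hN.inj.extend_apply _ _ (Sum.inl k)
    have hτb : ∀ k, τ₀ (b k) = β k := fun k => hN.inj.extend_apply _ _ (Sum.inr k)
    -- the value at `u`
    obtain ⟨τ, hτa', hτb', hgτ⟩ : ∃ τ : ι → K, (∀ k, τ (a k) = α k) ∧ (∀ k, τ (b k) = β k) ∧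
        Eqv p (fun x => g' (x + τ) + ∑ i ∈ Finset.univ.filter
          (fun i => i ∉ Set.range (Sum.elim a b)), d' i * (x + τ) i) g' := by
      rcases hg' with h | ⟨u, hu, c, hcc, h⟩
      · refine ⟨τ₀, hτa, hτb, Eqv.of_eq fun x => ?_⟩
        rw [h, h, zero_add]
        refine Finset.sum_eq_zero fun i hi => ?_
        rw [hfree i (Finset.mem_filter.1 hi).2 (fun x y _ => by rw [h, h]), zero_mul]
      · have hadd : IsAdd p (ev p (c + adj p c)) := ⟨_, fun _ => rfl⟩
        have hne : ev p (c + adj p c) ≠ 0 := fun h0 => hcc (ev_injective fun x => congrFun h0 x)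
        obtain ⟨γ, hγ⟩ := (hadd.surj_finite hne).1 (-(d' u))
        rw [ev_add] at hγ
        refine ⟨Function.update τ₀ u γ, fun k => ?_, fun k => ?_, ?_⟩
        · rw [Function.update_of_ne (fun h : a k = u => hu ⟨Sum.inl k, h⟩), hτa]
        · rw [Function.update_of_ne (fun h : b k = u => hu ⟨Sum.inr k, h⟩), hτb]
        · have hsum : ∀ x : ι → K, ∑ i ∈ Finset.univ.filter
              (fun i => i ∉ Set.range (Sum.elim a b)), d' i * (x + Function.update τ₀ u γ) i =
              d' u * x u + d' u * γ := by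
            intro x
            rw [Finset.sum_eq_single u]
            · rw [Pi.add_apply, Function.update_self, mul_add]
            · intro i hi hiu
              rw [hfree i (Finset.mem_filter.1 hi).2 (fun x y hxy => by
                rw [h, h, hxy u hiu.symm]), zero_mul]
            · intro hu'
              refine absurd ?_ hu'
              rw [Finset.mem_filter]
              exact ⟨Finset.mem_univ _, hu⟩
          have hev : IsAdd p (ev p c) := ⟨c, fun _ => rfl⟩
          obtain ⟨c', hc', _, hc'1⟩ := hev.exists_adj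
          -- the mixed term
          have hmix : Eqv p (fun x : ι → K => γ * ev p c (x u)) (fun x => x u * ev p (adj p c) γ) := by
            have h1 : (fun x : ι → K => γ * ev p c (x u)) =
                fun x => ∑ s ∈ c.support, fr K p s (x u * fr K p (-s) (c s * γ)) := by
              funext x
              rw [ev, Finsupp.sum, Finset.mul_sum]
              refine Finset.sum_congr rfl fun s _ => ?_
              rw [map_mul, fr_neg_self]
              ring
            have h2 : (fun x : ι → K => x u * ev p (adj p c) γ) =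
                fun x => ∑ s ∈ c.support, x u * fr K p (-s) (c s * γ) := by
              funext x
              rw [ev_adj, Finset.mul_sum]
            rw [h1, h2]
            exact Eqv.sum _ fun s _ => eqv_fr ((isPerf_proj u).mul (isPerf_const _)) s
          have h3 : Eqv p (fun x : ι → K => (x u * ev p c (x u) + (x u * ev p c γ + d' u * x u)) +
              (γ * ev p c (x u) + (γ * ev p c γ + d' u * γ)))
              (fun x => (x u * ev p c (x u) + (x u * ev p c γ + d' u * x u)) +
              (x u * ev p (adj p c) γ + 0)) :=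
            (Eqv.refl _).add (hmix.add (eqv_const _))
          refine Eqv.trans (Eqv.of_eq fun x => ?_) (h3.trans (Eqv.of_eq fun x => ?_))
          · rw [hsum, h, Pi.add_apply, Function.update_self, hev.map_add]
            ring
          · rw [h]
            linear_combination x u * hγ
    -- the translated function
    have h1 := htot.comp (φ := fun x => x + τ) (cov_translate (p := p) τ).perf
    have h2 : Eqv p (fun x : ι → K => (∑ i, (x + τ) (a i) * M i ((x + τ) (b i)) + g' (x + τ)) +
        ∑ i, d' i * (x + τ) i) (fun x => ∑ i, x (a i) * M i (x (b i)) + g' x) := by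
      have e1 : ∀ k, Eqv p (fun x : ι → K => (x + τ) (a k) * M k ((x + τ) (b k)) +
          (d' (a k) * (x + τ) (a k) + d' (b k) * (x + τ) (b k)))
          (fun x => x (a k) * M k (x (b k))) := by
        intro k
        have e2 : Eqv p (fun x : ι → K => x (a k) * M k (x (b k)) + ((α k * M k (x (b k)) +
            d' (b k) * x (b k)) + (α k * M k (β k) + (d' (a k) * α k + d' (b k) * β k))))
            (fun x => x (a k) * M k (x (b k)) + ((x (b k) * M' k (α k) +
            d' (b k) * x (b k)) + 0)) :=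
          (Eqv.refl _).add (((hM'1 k ι (fun _ => α k) (fun x => x (b k)) (isPerf_const _)
            (isPerf_proj _)).add (Eqv.refl _)).add (eqv_const _))
        refine Eqv.trans (Eqv.of_eq fun x => ?_) (e2.trans (Eqv.of_eq fun x => ?_))
        · simp only [Pi.add_apply, hτa', hτb', (hN.hM k).map_add, hβ]
          ring
        · rw [hα]
          ring
      have e3 := (Eqv.sum Finset.univ fun k _ => e1 k).add hgτ
      refine Eqv.trans (Eqv.of_eq fun x => ?_) e3
      rw [sum_inj hN.inj (fun i => d' i * (x + τ) i)]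
      simp only [Finset.sum_add_distrib]
      ring
    have h3 := h1.trans h2
    -- nonnegative exponents
    choose T hT using fun k => (hN.hM k).exists_pos
    set S := Finset.univ.sup T with hS
    have hST : ∀ k, T k ≤ S := fun k => Finset.le_sup (Finset.mem_univ k)
    have hδ := isog_diag (p := p) (K := K) (S := (Finset.univ : Finset ι))
      (D := fun i x => if i ∈ Set.range b then fr K p (S : ℕ) x else x)
      (fun i => by
        by_cases h : i ∈ Set.range b
        · simp only [h, if_true]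
          simpa using isAdd_single (p := p) (K := K) ((S : ℕ) : ℤ) 1
        · simp only [h, if_false]
          exact isAdd_id)
      (fun i => by
        by_cases h : i ∈ Set.range b
        · simp only [h, if_true]
          intro h0
          have := congrFun h0 (1 : K)
          simp at this
        · simp only [h, if_false]
          exact id_ne_zero')
      (fun i hi => absurd (Finset.mem_univ i) hi)
    have ha' : ∀ k, a k ∉ Set.range b := by
      rintro k ⟨j, hj⟩
      have := @hN.inj (Sum.inr j) (Sum.inl k) hj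
      exact absurd this (by simp)
    rcases hg' with h | ⟨u, hu, c, hcc, h⟩
    · refine ⟨_, (hφ₀.cov.comp (cov_translate (p := p) τ)).comp hδ.cov, Or.inr
        ⟨r, a, b, fun k x => M k (fr K p (S : ℕ) x), fun _ => 0, hN.inj, fun k => hT k S (hST k),
          fun k h0 => hN.hM0 k ?_, Or.inl fun _ => rfl, ?_⟩⟩
      · funext y
        have h7 : M k (fr K p ((S : ℕ) : ℤ) (fr K p (-((S : ℕ) : ℤ)) y)) = 0 :=
          congrFun h0 (fr K p (-((S : ℕ) : ℤ)) y)
        rw [fr_neg_self] at h7
        exact h7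
      · refine (h3.comp hδ.cov.perf).trans (Eqv.of_eq fun x => ?_)
        rw [h]
        congr 1
        refine Finset.sum_congr rfl fun k _ => ?_
        simp only [if_neg (ha' k), if_pos (Set.mem_range_self k)]
    · have hub : u ∉ Set.range b := fun ⟨k, hk⟩ => hu ⟨Sum.inr k, hk⟩
      obtain ⟨B, hB, hB'⟩ := eqv_pos (p := p) (A := ev p c) ⟨c, fun _ => rfl⟩ u
      refine ⟨_, (hφ₀.cov.comp (cov_translate (p := p) τ)).comp hδ.cov, Or.inr
        ⟨r, a, b, fun k x => M k (fr K p (S : ℕ) x), fun x => x u * B (x u), hN.inj,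
          fun k => hT k S (hST k), fun k h0 => hN.hM0 k ?_,
          Or.inr ⟨u, hu, B, hB, fun _ => rfl⟩, ?_⟩⟩
      · funext y
        have h7 : M k (fr K p ((S : ℕ) : ℤ) (fr K p (-((S : ℕ) : ℤ)) y)) = 0 :=
          congrFun h0 (fr K p (-((S : ℕ) : ℤ)) y)
        rw [fr_neg_self] at h7
        exact h7
      · have h4 : Eqv p (fun x : ι → K => ∑ k, x (a k) * M k (fr K p (S : ℕ) (x (b k))) + g' x)
            (fun x => ∑ k, x (a k) * M k (fr K p (S : ℕ) (x (b k))) + x u * B (x u)) :=
          (Eqv.refl _).add ((Eqv.of_eq h).trans hB')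
        refine (h3.comp hδ.cov.perf).trans (Eqv.trans (Eqv.of_eq fun x => ?_) h4)
        rw [h, h]
        congr 1
        · refine Finset.sum_congr rfl fun k _ => ?_
          simp only [if_neg (ha' k), if_pos (Set.mem_range_self k)]
        · simp only [if_neg hub]

end Pool.Agent.H856.AQ
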