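import Mathlib

/-!
# Common zeros of few polynomials without constant term

Over an algebraically closed field, `e` polynomials without constant term in `n > e` variables have
a common zero different from the origin (Krull's height theorem and Hilbert's Nullstellensatz).
-/

set_option autoImplicit false

namespace Pool.Agent.H856.AQ

open MvPolynomial

section height

variable (K : Type*) [Field K] (n : ℕ)

/-- set the first `j` variables equal to zero -/
noncomputable def kill (j : ℕ) : MvPolynomial (Fin n) K →ₐ[K] MvPolynomial (Fin n) K :=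
  aeval (fun i => if (i : ℕ) < j then 0 else X i)

/-- the prime ideal of the first `j` variables -/
noncomputable def primeChain (j : ℕ) : Ideal (MvPolynomial (Fin n) K) :=
  RingHom.ker (kill K n j).toRingHom

instance (j : ℕ) : (primeChain K n j).IsPrime := RingHom.ker_isPrime _

theorem kill_kill {i j : ℕ} (hij : i ≤ j) (f : MvPolynomial (Fin n) K) :
    kill K n j (kill K n i f) = kill K n j f := by
  have : (kill K n j).comp (kill K n i) = kill K n j := by
    apply MvPolynomial.algHom_ext
    intro a
    simp only [kill, AlgHom.comp_apply, aeval_X]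
    by_cases h : (a : ℕ) < i
    · rw [if_pos h, map_zero, if_pos (lt_of_lt_of_le h hij)]
    · rw [if_neg h, aeval_X]
  exact DFunLike.congr_fun this f

theorem primeChain_lt {j : ℕ} (hj : j < n) : primeChain K n j < primeChain K n (j + 1) := by
  refine lt_of_le_of_ne ?_ ?_
  · intro f hf
    have hf' : kill K n j f = 0 := hf
    show kill K n (j + 1) f = 0
    rw [← kill_kill K n (Nat.le_succ j) f, hf', map_zero]
  · intro h
    have h1 : (X ⟨j, hj⟩ : MvPolynomial (Fin n) K) ∈ primeChain K n (j + 1) := by
      show kill K n (j + 1) (X ⟨j, hj⟩) = 0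
      simp [kill]
    rw [← h] at h1
    have h2 : kill K n j (X ⟨j, hj⟩) = 0 := h1
    simp [kill] at h2

theorem le_height_primeChain : ∀ j ≤ n, (j : ℕ∞) ≤ (primeChain K n j).height
  | 0, _ => by simp
  | j + 1, hj => by
    have h1 := le_height_primeChain j (by omega)
    have h2 := Ideal.height_add_one_le_of_lt_of_isPrime (primeChain_lt K n (j := j) (by omega))
    refine le_trans ?_ h2
    push_cast
    gcongr

/-- The height of the ideal of all variables is at least the number of variables. -/
theorem le_height_origin (q : Ideal (MvPolynomial (Fin n) K)) 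
    (hq : ∀ i, (X i : MvPolynomial (Fin n) K) ∈ q) : (n : ℕ∞) ≤ q.height := by
  refine le_trans (le_height_primeChain K n n le_rfl) (Ideal.height_mono ?_)
  intro f hf
  have hf' : kill K n n f = 0 := hf
  have h1 : (Ideal.Quotient.mkₐ K q).comp (kill K n n) = Ideal.Quotient.mkₐ K q := by
    apply MvPolynomial.algHom_ext
    intro a
    have h2 : Ideal.Quotient.mkₐ K q (X a) = 0 := by
      rw [Ideal.Quotient.mkₐ_eq_mk]
      exact Ideal.Quotient.eq_zero_iff_mem.2 (hq a)
    rw [AlgHom.comp_apply, h2]
    simp [kill]
  have h3 := DFunLike.congr_fun h1 f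
  rw [AlgHom.comp_apply, hf', map_zero, Ideal.Quotient.mkₐ_eq_mk] at h3
  exact Ideal.Quotient.eq_zero_iff_mem.1 h3.symm

end height

/-- Few polynomials without constant term over an algebraically closed field have a nontrivial
common zero. -/
theorem exists_common_zero {K : Type*} [Field K] [IsAlgClosed K] {n e : ℕ} (hen : e < n)
    (F : Fin e → MvPolynomial (Fin n) K) (hF : ∀ i, eval 0 (F i) = 0) :
    ∃ x : Fin n → K, x ≠ 0 ∧ ∀ i, eval x (F i) = 0 := by
  classical
  by_contra hcon
  push Not at hcon
  set I : Ideal (MvPolynomial (Fin n) K) := Ideal.span (Set.range F) with hI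
  have hzero : zeroLocus K I = {0} := by
    ext x
    simp only [Set.mem_singleton_iff]
    constructor
    · intro hx
      by_contra hx0
      obtain ⟨i, hi⟩ := hcon x hx0
      apply hi
      have := hx (F i) (Ideal.subset_span ⟨i, rfl⟩)
      simpa using this
    · rintro rfl
      intro f hf
      have h1 : I ≤ RingHom.ker (eval (0 : Fin n → K)) := by
        rw [hI, Ideal.span_le]
        rintro _ ⟨i, rfl⟩
        exact hF i
      have := h1 hf
      simpa using this
  have hrad : vanishingIdeal K (zeroLocus K I) = I.radical := vanishingIdeal_zeroLocus_eq_radical I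
  set q : Ideal (MvPolynomial (Fin n) K) := vanishingIdeal K {(0 : Fin n → K)} with hq
  have hqmax : q.IsMaximal := inferInstance
  have hqp : q.IsPrime := hqmax.isPrime
  have hIq : q ∈ I.minimalPrimes := by
    rw [← Ideal.radical_minimalPrimes, ← hrad, hzero, ← hq,
      Ideal.minimalPrimes_eq_subsingleton_self]
    rfl
  have h1 : q.height ≤ (Set.range F).ncard :=
    Ideal.height_le_card_of_mem_minimalPrimes_span (Set.finite_range F) hIq
  have h2 : (n : ℕ∞) ≤ q.height := by
    apply le_height_origin
    intro i
    rw [hq, mem_vanishingIdeal_singleton_iff]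
    simp
  have h3 : (Set.range F).ncard ≤ e := by
    have := Set.ncard_image_le (s := (Set.univ : Set (Fin e))) (f := F) (Set.toFinite _)
    rw [Set.image_univ, Set.ncard_univ, Nat.card_fin] at this
    exact this
  have h4 : (n : ℕ∞) ≤ (e : ℕ∞) := h2.trans (h1.trans (by exact_mod_cast h3))
  exact absurd (by exact_mod_cast h4 : n ≤ e) (by omega)

end Pool.Agent.H856.AQ
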