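import Pool.Agent.H856.AQ.Quad

/-!
# The hyperbolic normal form
-/

set_option autoImplicit false
set_option linter.unusedSectionVars false
set_option linter.style.haveILetI false

namespace Pool.Agent.H856.AQ

open MvPolynomial

variable {K : Type*} [Field K] [IsAlgClosed K] {p : ℕ} [hp : Fact p.Prime] [CharP K p]
variable {ι : Type} [Finite ι] [DecidableEq ι]

theorem id_ne_zero' : (fun x : K => x) ≠ 0 := fun h => one_ne_zero (congrFun h (1 : K))

/-- the isogeny which makes an isotropic vector a coordinate axis -/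
theorem isog_axis {S : Finset ι} {i₀ : ι} (hi : i₀ ∈ S) {v : ι → K → K}
    (hv : ∀ i, IsAdd p (v i)) (hv0 : v i₀ ≠ 0) :
    ∃ φ : (ι → K) → (ι → K), Isog p S φ ∧
      ∀ x, ∀ i ∈ S, (∀ j ∈ S, j ≠ i₀ → x j = 0) → φ x i = v i (x i₀) := by
  have h1 := isog_shear (p := p) (K := K) hi hv
  have h2 := isog_diag (p := p) (K := K) (S := S) (D := fun i x => if i = i₀ then v i₀ x else x)
    (fun i => by
      by_cases h : i = i₀
      · simpa [h] using hv i₀
      · simpa [h] using isAdd_id (p := p) (K := K))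
    (fun i => by
      by_cases h : i = i₀
      · simpa [h] using hv0
      · simpa [h] using id_ne_zero' (K := K))
    (fun i hiS x => by
      have : i ≠ i₀ := fun h => hiS (h ▸ hi)
      simp [this])
  refine ⟨_, h2.comp h1, fun x i hiS hx => ?_⟩
  by_cases h : i = i₀
  · subst h
    simp
  · have h3 : i ∈ S.erase i₀ := Finset.mem_erase.2 ⟨h, hiS⟩
    simp [h, hiS, hx i hiS h]

/-- the isogeny which makes an additive functional a function of one variable -/
theorem isog_elim {S : Finset ι} {i₀ : ι} (hi : i₀ ∈ S) {C : ι → K → K}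
    (hC : ∀ i, IsAdd p (C i)) (hC0 : C i₀ ≠ 0) :
    ∃ (φ : (ι → K) → (ι → K)) (Q : ι → K → K), Isog p S φ ∧ (∀ i, IsAdd p (Q i)) ∧
      (∀ i, Q i ≠ 0) ∧ (∀ x, ∀ i, i ≠ i₀ → φ x i = Q i (x i)) ∧
      ∀ x, ∑ i ∈ S, C i (φ x i) = C i₀ (x i₀) := by
  choose P Q hP hQ hQ0 hPQ using fun i => ore (hC i₀) (hC i) hC0
  have h1 := isog_coshear (p := p) (K := K) hi hP
  have h2 := isog_diag (p := p) (K := K) (S := S)
    (D := fun i x => if i ∈ S.erase i₀ then Q i x else x)
    (fun i => by
      by_cases h : i ∈ S.erase i₀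
      · simp only [h, if_true]
        exact hQ i
      · simp only [h, if_false]
        exact isAdd_id)
    (fun i => by
      by_cases h : i ∈ S.erase i₀
      · simp only [h, if_true]
        exact hQ0 i
      · simp only [h, if_false]
        exact id_ne_zero')
    (fun i hiS x => by
      rw [if_neg fun h => hiS (Finset.mem_of_mem_erase h)])
  refine ⟨_, fun i x => if i ∈ S.erase i₀ then Q i x else x, h2.comp h1, fun i => ?_, fun i => ?_,
    fun x i hne => ?_, fun x => ?_⟩
  · by_cases h : i ∈ S.erase i₀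
    · simp only [h, if_true]
      exact hQ i
    · simp only [h, if_false]
      exact isAdd_id
  · by_cases h : i ∈ S.erase i₀
    · simp only [h, if_true]
      exact hQ0 i
    · simp only [h, if_false]
      exact id_ne_zero'
  · simp only [if_neg hne]
  · rw [← Finset.add_sum_erase S _ hi]
    have e1 : i₀ ∉ S.erase i₀ := fun h => (Finset.mem_erase.1 h).1 rfl
    simp only [if_neg e1, if_true]
    rw [(hC i₀).map_add, (hC i₀).map_sum, add_assoc, ← Finset.sum_add_distrib,
      Finset.sum_eq_zero, add_zero]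
    intro j hj
    simp only [if_pos hj, if_neg (Finset.mem_erase.1 hj).1]
    exact hPQ j (x j)

/-- the normal form, up to equivalence -/
structure NormalForm (p : ℕ) [Fact p.Prime] [CharP K p] (S : Finset ι) (f : (ι → K) → K)
    {r : ℕ} (a b : Fin r → ι) (M : Fin r → K → K) (g : (ι → K) → K) : Prop where
  ha : ∀ i, a i ∈ S
  hb : ∀ i, b i ∈ S
  inj : Function.Injective (Sum.elim a b)
  hM : ∀ i, IsAdd p (M i)
  hM0 : ∀ i, M i ≠ 0
  hg : (∀ x, g x = 0) ∨ ∃ u ∈ S, u ∉ Set.range (Sum.elim a b) ∧ ∃ M₀, IsAdd p M₀ ∧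
    ∀ x, g x = x u * M₀ (x u)
  eqv : Eqv p f (fun x => ∑ i, x (a i) * M i (x (b i)) + g x)

theorem sum_fix {S : Finset ι} {A : (ι → K) → K} {C : ι → K → K} (h : ∀ x, A x = ∑ i ∈ S, C i (x i))
    {φ : (ι → K) → (ι → K)} (x : ι → K) : A (φ x) = ∑ i ∈ S, C i (φ x i) := h _

/-- **The normal form of quadratic functions.** -/
theorem normal : ∀ (n : ℕ) (S : Finset ι), S.card = n → ∀ f : (ι → K) → K, QuadOn p S f →
    ∃ φ, Isog p S φ ∧ ∃ (r : ℕ) (a b : Fin r → ι) (M : Fin r → K → K) (g : (ι → K) → K),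
      NormalForm p S (fun x => f (φ x)) a b M g := by
  intro n
  induction n using Nat.strong_induction_on with
  | _ n ih =>
  intro S hSn f hf
  by_cases hcard : S.card ≤ 1
  · -- at most one variable
    refine ⟨fun x => x, Isog.id S, 0, Fin.elim0, Fin.elim0, Fin.elim0, ?_⟩
    obtain ⟨L, hL, h⟩ := hf
    refine ⟨fun x => ∑ i ∈ S, ∑ j ∈ S, x i * L i j (x j), ⟨fun i => i.elim0, fun i => i.elim0,
      ?_, fun i => i.elim0, fun i => i.elim0, ?_, ?_⟩⟩
    · rintro (i | i) <;> exact i.elim0
    · rcases S.eq_empty_or_nonempty with h0 | hne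
      · left
        intro x
        simp [h0]
      · right
        obtain ⟨u, h1⟩ := Finset.card_eq_one.1 (le_antisymm hcard (Finset.card_pos.2 hne))
        refine ⟨u, by simp [h1], ?_, L u u, hL u u, fun x => by simp [h1]⟩
        rintro ⟨i | i, _⟩ <;> exact i.elim0
    · refine h.trans (Eqv.of_eq fun x => ?_)
      simp
  · push Not at hcard
    obtain ⟨L, hL, hLf⟩ := id hf
    obtain ⟨v, hv, ⟨i₀, hi₀, hvi⟩, hiso⟩ := isotropic S hcard L hL
    obtain ⟨φ₁, hφ₁, hax⟩ := isog_axis hi₀ hv hvi
    have hf1 : QuadOn p S (fun x => f (φ₁ x)) := hf.comp hφ₁.lin hφ₁.perf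
    obtain ⟨A, g, hA, hg, hsplit⟩ := hf1.split hi₀
    obtain ⟨C, hC, hAC⟩ := hA
    set S' := S.erase i₀ with hS'
    have hS'S : S' ⊆ S := Finset.erase_subset _ _
    have hi₀S' : i₀ ∉ S' := fun h => (Finset.mem_erase.1 h).1 rfl
    -- the term in `x i₀` alone is trivial
    have hdrop : Eqv p (fun x : ι → K => x i₀ * C i₀ (x i₀)) (fun _ => 0) := by
      let E : (ι → K) → (ι → K) := fun x i => if i = i₀ then x i₀ else 0
      have hE : ∀ i, IsPerf p (fun x => E x i) := by
        intro i
        by_cases h : i = i₀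
        · simpa [E, h] using isPerf_proj (p := p) (K := K) i₀
        · simpa [E, h] using isPerf_const (p := p) (ι := ι) (0 : K)
      have h1 : Eqv p (fun x => f (φ₁ (E x))) (fun _ => 0) := by
        have h2 := hLf.comp (φ := fun x => φ₁ (E x)) (fun i => (hφ₁.perf i).comp hE)
        refine h2.trans ?_
        refine Eqv.trans (Eqv.of_eq fun x => ?_) (hiso ι (fun x => x i₀) (isPerf_proj i₀))
        have h3 : ∀ i ∈ S, φ₁ (E x) i = v i (x i₀) := by
          intro i hi
          rw [hax (E x) i hi (fun j _ hj => by simp [E, hj])]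
          simp [E]
        refine Finset.sum_congr rfl fun i hi => Finset.sum_congr rfl fun j hj => ?_
        rw [h3 i hi, h3 j hj]
      have h4 := hsplit.comp hE
      have h5 : Eqv p (fun x => g (E x)) (fun _ => 0) := by
        obtain ⟨L', hL', h6⟩ := hg
        refine (h6.comp hE).trans (Eqv.of_eq fun x => ?_)
        refine Finset.sum_eq_zero fun i hi => Finset.sum_eq_zero fun j _ => ?_
        have : E x i = 0 := by simp [E, (Finset.mem_erase.1 hi).1]
        rw [this, zero_mul]
      have h7 : Eqv p (fun x => E x i₀ * A (E x)) (fun _ => 0) := by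
        have h8 := (h4.symm.trans h1).add h5.neg
        refine Eqv.trans (Eqv.of_eq fun x => ?_) (h8.trans (Eqv.of_eq fun x => ?_))
        · ring
        · ring
      refine Eqv.trans (Eqv.of_eq fun x => ?_) h7
      rw [hAC, Finset.sum_eq_single i₀]
      · simp [E]
      · intro i _ hi
        simp only [E, if_neg hi]
        exact (hC i).map_zero
      · intro h
        exact absurd hi₀ h
    have hsplit' : Eqv p (fun x => f (φ₁ x)) (fun x => x i₀ * (∑ i ∈ S', C i (x i)) + g x) := by
      have h1 : Eqv p (fun x => x i₀ * A x + g x)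
          (fun x => (x i₀ * C i₀ (x i₀)) + (x i₀ * (∑ i ∈ S', C i (x i)) + g x)) :=
        Eqv.of_eq fun x => by
          rw [hAC, ← Finset.add_sum_erase S _ hi₀]
          ring
      refine (hsplit.trans h1).trans ((hdrop.add (Eqv.refl _)).trans (Eqv.of_eq fun x => ?_))
      rw [zero_add]
    by_cases hzero : ∀ j ∈ S', C j = 0
    · -- the variable `i₀` does not occur
      have h1 : Eqv p (fun x => f (φ₁ x)) g := by
        refine hsplit'.trans (Eqv.of_eq fun x => ?_)
        rw [Finset.sum_eq_zero fun j hj => by rw [hzero j hj]; rfl, mul_zero, zero_add]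
      have hlt : S'.card < n := by
        rw [← hSn]
        exact Finset.card_erase_lt_of_mem hi₀
      obtain ⟨φ₂, hφ₂, r, a, b, M, k, hN⟩ := ih _ hlt S' rfl g hg
      refine ⟨fun x => φ₁ (φ₂ x), hφ₁.comp (hφ₂.mono hS'S), r, a, b, M, k, ?_⟩
      exact ⟨fun i => hS'S (hN.ha i), fun i => hS'S (hN.hb i), hN.inj, hN.hM, hN.hM0, by
        rcases hN.hg with h | ⟨u, hu, h⟩
        · exact Or.inl h
        · exact Or.inr ⟨u, hS'S hu, h⟩, (h1.comp hφ₂.perf).trans hN.eqv⟩
    · push Not at hzero
      obtain ⟨j₀, hj₀, hCj⟩ := hzero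
      have hji : j₀ ≠ i₀ := (Finset.mem_erase.1 hj₀).1
      obtain ⟨φ₂, Q₂, hφ₂, hQ₂, hQ₂0, hφQ₂, helim₂⟩ := isog_elim hj₀ hC hCj
      have h2 : Eqv p (fun x => f (φ₁ (φ₂ x))) (fun x => x i₀ * C j₀ (x j₀) + g (φ₂ x)) := by
        refine (hsplit'.comp hφ₂.perf).trans (Eqv.of_eq fun x => ?_)
        rw [helim₂, hφ₂.fix x i₀ hi₀S']
      have hg2 : QuadOn p S' (fun x => g (φ₂ x)) := hg.comp hφ₂.lin hφ₂.perf
      obtain ⟨B, g₃, hB, hg₃, hsplit₃⟩ := hg2.split hj₀
      set S'' := S'.erase j₀ with hS''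
      have hS''S' : S'' ⊆ S' := Finset.erase_subset _ _
      have hj₀S'' : j₀ ∉ S'' := fun h => (Finset.mem_erase.1 h).1 rfl
      obtain ⟨C', hC', hC'0, hC'1⟩ := (hC j₀).exists_adj
      -- all terms with `x j₀`
      have h3 : Eqv p (fun x => f (φ₁ (φ₂ x))) (fun x => x j₀ * (C' (x i₀) + B x) + g₃ x) := by
        refine h2.trans ?_
        have h4 := (hC'1 ι (fun x => x i₀) (fun x => x j₀) (isPerf_proj _) (isPerf_proj _)).add
          hsplit₃
        refine h4.trans (Eqv.of_eq fun x => ?_)
        ring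
      obtain ⟨D, hD, hBD⟩ := hB
      let D' : ι → K → K := fun i => if i = i₀ then C' else D i
      have hD' : ∀ i, IsAdd p (D' i) := by
        intro i
        by_cases h : i = i₀
        · simpa [D', h] using hC'
        · simpa [D', h] using hD i
      have hD'0 : D' i₀ ≠ 0 := by simpa [D'] using hC'0 hCj
      have hsumD : ∀ x : ι → K, C' (x i₀) + B x = ∑ i ∈ S, D' i (x i) := by
        intro x
        rw [← Finset.add_sum_erase S _ hi₀, hBD]
        congr 1
        · simp [D']
        · refine Finset.sum_congr rfl fun i hi => ?_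
          simp [D', (Finset.mem_erase.1 hi).1]
      obtain ⟨φ₃, Q₃, hφ₃, hQ₃, hQ₃0, hφQ₃, helim₃⟩ := isog_elim hi₀ hD' hD'0
      have h5 : Eqv p (fun x => f (φ₁ (φ₂ (φ₃ x))))
          (fun x => Q₃ j₀ (x j₀) * C' (x i₀) + g₃ (φ₃ x)) := by
        refine (h3.comp hφ₃.perf).trans (Eqv.of_eq fun x => ?_)
        rw [hsumD, helim₃, hφQ₃ x j₀ hji]
        simp [D']
      have hg4 : QuadOn p S'' (fun x => g₃ (φ₃ x)) := by
        refine hg₃.comp (fun i hi => ?_) hφ₃.perf
        have hii : i ≠ i₀ := fun h => hi₀S' (h ▸ hS''S' hi)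
        have : (fun x => φ₃ x i) = fun x => Q₃ i (x i) := funext fun x => hφQ₃ x i hii
        rw [this]
        exact linOn_single (hQ₃ i) hi
      have hlt : S''.card < n := by
        rw [← hSn]
        exact lt_of_lt_of_le (Finset.card_erase_lt_of_mem hj₀) (Finset.card_le_card hS'S)
      obtain ⟨φ₄, hφ₄, r, a, b, M, k, hN⟩ := ih _ hlt S'' rfl _ hg4
      obtain ⟨C'', hC'', hC''0, hC''1⟩ := hC'.exists_adj
      -- the new hyperbolic pair
      have h6 : Eqv p (fun x : ι → K => Q₃ j₀ (x j₀) * C' (x i₀))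
          (fun x => x i₀ * C'' (Q₃ j₀ (x j₀))) :=
        hC''1 ι (fun x => Q₃ j₀ (x j₀)) (fun x => x i₀) ((hQ₃ j₀).perf (isPerf_proj _))
          (isPerf_proj _)
      have hi₀S'' : i₀ ∉ S'' := fun h => hi₀S' (hS''S' h)
      have h7 : Eqv p (fun x => f (φ₁ (φ₂ (φ₃ (φ₄ x)))))
          (fun x => x i₀ * C'' (Q₃ j₀ (x j₀)) + (∑ i, x (a i) * M i (x (b i)) + k x)) := by
        refine ((h5.trans (h6.add (Eqv.refl _))).comp hφ₄.perf).trans ?_
        refine Eqv.add (Eqv.of_eq fun x => ?_) hN.eqv
        rw [hφ₄.fix x i₀ hi₀S'', hφ₄.fix x j₀ hj₀S'']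
      refine ⟨fun x => φ₁ (φ₂ (φ₃ (φ₄ x))), hφ₁.comp ((hφ₂.mono hS'S).comp
        (hφ₃.comp (hφ₄.mono (hS''S'.trans hS'S)))), r + 1, Fin.cons i₀ a, Fin.cons j₀ b,
        Fin.cons (fun x => C'' (Q₃ j₀ x)) M, k, ?_⟩
      have hSS : S'' ⊆ S := hS''S'.trans hS'S
      refine ⟨?_, ?_, ?_, ?_, ?_, ?_, ?_⟩
      · intro i
        refine Fin.cases hi₀ (fun i => ?_) i
        simpa using hSS (hN.ha i)
      · intro i
        refine Fin.cases (hS'S hj₀) (fun i => ?_) i
        simpa using hSS (hN.hb i)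
      · have hai : ∀ i, a i ≠ i₀ := fun i h => hi₀S'' (h ▸ hN.ha i)
        have haj : ∀ i, a i ≠ j₀ := fun i h => hj₀S'' (h ▸ hN.ha i)
        have hbi : ∀ i, b i ≠ i₀ := fun i h => hi₀S'' (h ▸ hN.hb i)
        have hbj : ∀ i, b i ≠ j₀ := fun i h => hj₀S'' (h ▸ hN.hb i)
        have hinj := hN.inj
        rw [Sum.elim_injective] at hinj ⊢
        obtain ⟨e1, e2, e3⟩ := hinj
        refine ⟨Fin.cons_injective_iff.2 ⟨?_, e1⟩, Fin.cons_injective_iff.2 ⟨?_, e2⟩, ?_⟩
        · rintro ⟨i, hi⟩
          exact hai i hi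
        · rintro ⟨i, hi⟩
          exact hbj i hi
        · intro i j
          refine Fin.cases ?_ (fun i => ?_) i
          · refine Fin.cases ?_ (fun j => ?_) j
            · simpa using hji.symm
            · simpa using (hbi j).symm
          · refine Fin.cases ?_ (fun j => ?_) j
            · simpa using haj i
            · simpa using e3 i j
      · intro i
        refine Fin.cases ?_ (fun i => ?_) i
        · simpa using hC''.comp (hQ₃ j₀)
        · simpa using hN.hM i
      · intro i
        refine Fin.cases ?_ (fun i => ?_) i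
        · simp only [Fin.cons_zero]
          intro h
          apply hC''0 (hC'0 hCj)
          funext y
          obtain ⟨x, rfl⟩ := ((hQ₃ j₀).surj_finite (hQ₃0 j₀)).1 y
          exact congrFun h x
        · simpa using hN.hM0 i
      · rcases hN.hg with h | ⟨u, hu, hu', h⟩
        · exact Or.inl h
        · refine Or.inr ⟨u, hSS hu, ?_, h⟩
          rintro ⟨i | i, hi⟩
          · revert hi
            refine Fin.cases ?_ (fun i => ?_) i
            · intro hi
              have : i₀ = u := by simpa using hi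
              exact hi₀S'' (this ▸ hu)
            · intro hi
              exact hu' ⟨Sum.inl i, by simpa using hi⟩
          · revert hi
            refine Fin.cases ?_ (fun i => ?_) i
            · intro hi
              have : j₀ = u := by simpa using hi
              exact hj₀S'' (this ▸ hu)
            · intro hi
              exact hu' ⟨Sum.inr i, by simpa using hi⟩
      · refine h7.trans (Eqv.of_eq fun x => ?_)
        rw [Fin.sum_univ_succ]
        simp only [Fin.cons_zero, Fin.cons_succ]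
        ring

end Pool.Agent.H856.AQ
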