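import Pool.Agent.H856.AQ.Krull

/-!
# Perfect polynomial functions and the Artin-Schreier equivalence
-/

set_option autoImplicit false
set_option linter.unusedSectionVars false
set_option linter.style.haveILetI false

namespace Pool.Agent.H856.AQ

open MvPolynomial

variable {K : Type*} [Field K] [IsAlgClosed K] (p : ℕ) [hp : Fact p.Prime] [CharP K p]

/-- the `s`-th power of the Frobenius automorphism of `K`, `s` an integer -/
noncomputable def fr (K : Type*) [Field K] [IsAlgClosed K] (p : ℕ) [Fact p.Prime] [CharP K p]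
    (s : ℤ) : K ≃+* K :=
  haveI : ExpChar K p := ExpChar.prime Fact.out
  haveI : PerfectRing K p := PerfectField.toPerfectRing p
  ((frobeniusEquiv K p : RingAut K) ^ s : RingAut K)

theorem fr_zero (x : K) : fr K p 0 x = x := by
  simp [fr]

theorem fr_one (x : K) : fr K p 1 x = x ^ p := by
  haveI : ExpChar K p := ExpChar.prime Fact.out
  simp [fr, frobenius_def]

theorem fr_add (s t : ℤ) (x : K) : fr K p (s + t) x = fr K p s (fr K p t x) := by
  unfold fr
  rw [zpow_add]
  rfl

theorem fr_neg_self (s : ℤ) (x : K) : fr K p s (fr K p (-s) x) = x := by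
  rw [← fr_add, add_neg_cancel, fr_zero]

theorem fr_self_neg (s : ℤ) (x : K) : fr K p (-s) (fr K p s x) = x := by
  rw [← fr_add, neg_add_cancel, fr_zero]

theorem fr_natCast (n : ℕ) (x : K) : fr K p n x = x ^ p ^ n := by
  induction n with
  | zero => simp [fr_zero]
  | succ n ih =>
    rw [Nat.cast_succ, add_comm, fr_add, ih, fr_one, ← pow_mul, pow_succ]

variable {ι κ : Type*}

/-- Functions on affine space which become polynomial functions after they are raised to a power
of `p`: the elements of the perfect closure of the polynomial ring. -/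
def IsPerf (f : (ι → K) → K) : Prop :=
  ∃ (N : ℕ) (P : MvPolynomial ι K), ∀ x, f x ^ p ^ N = eval x P

variable {p}

theorem IsPerf.lift {f : (ι → K) → K} {N : ℕ} {P : MvPolynomial ι K}
    (h : ∀ x, f x ^ p ^ N = eval x P) (M : ℕ) : ∀ x, f x ^ p ^ (N + M) = eval x (P ^ p ^ M) := by
  intro x
  rw [pow_add, pow_mul, h x, map_pow]

theorem isPerf_of_poly (P : MvPolynomial ι K) : IsPerf p (fun x : ι → K => eval x P) :=
  ⟨0, P, fun x => by rw [pow_zero, pow_one]⟩

theorem isPerf_const (c : K) : IsPerf p (fun _ : ι → K => c) :=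
  ⟨0, C c, fun x => by simp⟩

theorem isPerf_proj (i : ι) : IsPerf p (fun x : ι → K => x i) :=
  ⟨0, X i, fun x => by simp⟩

theorem IsPerf.add {f g : (ι → K) → K} (hf : IsPerf p f) (hg : IsPerf p g) :
    IsPerf p (fun x => f x + g x) := by
  obtain ⟨N, P, hP⟩ := hf
  obtain ⟨M, Q, hQ⟩ := hg
  refine ⟨N + M, P ^ p ^ M + Q ^ p ^ N, fun x => ?_⟩
  haveI : ExpChar K p := ExpChar.prime hp.out
  rw [add_pow_expChar_pow, IsPerf.lift hP M x, add_comm N M, IsPerf.lift hQ N x, map_add]

theorem IsPerf.mul {f g : (ι → K) → K} (hf : IsPerf p f) (hg : IsPerf p g) :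
    IsPerf p (fun x => f x * g x) := by
  obtain ⟨N, P, hP⟩ := hf
  obtain ⟨M, Q, hQ⟩ := hg
  refine ⟨N + M, P ^ p ^ M * Q ^ p ^ N, fun x => ?_⟩
  rw [mul_pow, IsPerf.lift hP M x, add_comm N M, IsPerf.lift hQ N x, map_mul]

theorem IsPerf.neg {f : (ι → K) → K} (hf : IsPerf p f) : IsPerf p (fun x => - f x) := by
  have := (isPerf_const (p := p) (ι := ι) (-1 : K)).mul hf
  simpa using this

theorem IsPerf.sub {f g : (ι → K) → K} (hf : IsPerf p f) (hg : IsPerf p g) :
    IsPerf p (fun x => f x - g x) := by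
  simpa [sub_eq_add_neg] using hf.add hg.neg

theorem IsPerf.sum {α : Type*} (s : Finset α) {f : α → (ι → K) → K}
    (hf : ∀ a ∈ s, IsPerf p (f a)) : IsPerf p (fun x => ∑ a ∈ s, f a x) := by
  classical
  induction s using Finset.induction_on with
  | empty => simpa using isPerf_const (p := p) (ι := ι) (0 : K)
  | insert a s ha ih =>
    have h1 := (hf a (Finset.mem_insert_self _ _)).add
      (ih fun b hb => hf b (Finset.mem_insert_of_mem hb))
    simpa [Finset.sum_insert ha] using h1

theorem IsPerf.pow {f : (ι → K) → K} (hf : IsPerf p f) (n : ℕ) : IsPerf p (fun x => f x ^ n) := by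
  induction n with
  | zero => simpa using isPerf_const (p := p) (ι := ι) (1 : K)
  | succ n ih => simpa [pow_succ] using ih.mul hf

theorem IsPerf.twist {f : (ι → K) → K} (hf : IsPerf p f) (s : ℤ) :
    IsPerf p (fun x => fr K p s (f x)) := by
  obtain ⟨n, rfl | rfl⟩ := s.eq_nat_or_neg
  · simpa [fr_natCast] using hf.pow (p ^ n)
  · obtain ⟨N, P, hP⟩ := hf
    refine ⟨n + N, P, fun x => ?_⟩
    rw [pow_add, pow_mul, ← fr_natCast p n, fr_neg_self, hP]

theorem IsPerf.comp {f : (ι → K) → K} (hf : IsPerf p f) {φ : (κ → K) → (ι → K)}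
    (hφ : ∀ i, IsPerf p (fun x => φ x i)) : IsPerf p (fun x => f (φ x)) := by
  obtain ⟨N, P, hP⟩ := hf
  have h1 : ∀ P : MvPolynomial ι K, IsPerf p (fun x => eval (φ x) P) := by
    intro P
    induction P using MvPolynomial.induction_on with
    | C a => simpa using isPerf_const (p := p) (ι := κ) a
    | add P Q hP hQ => simpa using hP.add hQ
    | mul_X P i hP => simpa using hP.mul (hφ i)
  obtain ⟨M, Q, hQ⟩ := h1 P
  refine ⟨N + M, Q, fun x => ?_⟩
  rw [pow_add, pow_mul, hP, hQ]

/-- common zeros of perfect polynomial functions which vanish at the origin -/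
theorem exists_common_zero_perf {n e : ℕ} (hen : e < n) (g : Fin e → (Fin n → K) → K)
    (hg : ∀ i, IsPerf p (g i)) (hg0 : ∀ i, g i 0 = 0) : ∃ x : Fin n → K, x ≠ 0 ∧ ∀ i, g i x = 0 := by
  choose N P hP using hg
  obtain ⟨x, hx, hx0⟩ := exists_common_zero hen P (fun i => by
    rw [← hP, hg0, zero_pow (pow_ne_zero _ hp.out.ne_zero)])
  refine ⟨x, hx, fun i => ?_⟩
  have := hx0 i
  rw [← hP] at this
  exact pow_eq_zero_iff (pow_ne_zero _ hp.out.ne_zero) |>.1 this

theorem exists_common_zero_perf' {α β : Type*} [Finite α] [Finite β]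
    (h : Nat.card β < Nat.card α) (g : β → (α → K) → K)
    (hg : ∀ i, IsPerf p (g i)) (hg0 : ∀ i, g i 0 = 0) : ∃ x : α → K, x ≠ 0 ∧ ∀ i, g i x = 0 := by
  have eα := Finite.equivFin α
  have eβ := Finite.equivFin β
  obtain ⟨x, hx, hx0⟩ := exists_common_zero_perf (p := p) h
    (fun i x => g (eβ.symm i) (fun a => x (eα a)))
    (fun i => (hg _).comp (φ := fun (x : Fin (Nat.card α) → K) a => x (eα a))
      (fun a => isPerf_proj (eα a)))
    (fun i => hg0 _)
  refine ⟨fun a => x (eα a), fun h0 => hx ?_, fun i => ?_⟩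
  · ext a
    have := congrFun h0 (eα.symm a)
    simpa using this
  · have := hx0 (eβ i)
    simpa using this

/-! ## the equivalence -/

/-- `f ~ g`: the difference is `h ^ p - h` with a perfect polynomial function `h`. -/
def Eqv (p : ℕ) [Fact p.Prime] [CharP K p] (f g : (ι → K) → K) : Prop :=
  ∃ h : (ι → K) → K, IsPerf p h ∧ ∀ x, f x - g x = h x ^ p - h x

theorem Eqv.refl (f : (ι → K) → K) : Eqv p f f :=
  ⟨fun _ => 0, isPerf_const 0, fun x => by simp [hp.out.ne_zero]⟩

theorem Eqv.of_eq {f g : (ι → K) → K} (h : ∀ x, f x = g x) : Eqv p f g := by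
  have : f = g := funext h
  rw [this]
  exact Eqv.refl g

theorem Eqv.add {f g f' g' : (ι → K) → K} (h : Eqv p f g) (h' : Eqv p f' g') :
    Eqv p (fun x => f x + f' x) (fun x => g x + g' x) := by
  obtain ⟨u, hu, hu'⟩ := h
  obtain ⟨v, hv, hv'⟩ := h'
  refine ⟨fun x => u x + v x, hu.add hv, fun x => ?_⟩
  haveI : ExpChar K p := ExpChar.prime hp.out
  rw [add_pow_expChar]
  linear_combination hu' x + hv' x

theorem Eqv.neg {f g : (ι → K) → K} (h : Eqv p f g) :
    Eqv p (fun x => - f x) (fun x => - g x) := by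
  obtain ⟨u, hu, hu'⟩ := h
  refine ⟨fun x => - u x, hu.neg, fun x => ?_⟩
  haveI : ExpChar K p := ExpChar.prime hp.out
  have h1 : (-u x) ^ p = - (u x) ^ p := by
    have := sub_pow_expChar (p := p) (0 : K) (u x)
    rw [zero_sub, zero_pow hp.out.ne_zero, zero_sub] at this
    exact this
  rw [h1]
  linear_combination - hu' x

theorem Eqv.symm {f g : (ι → K) → K} (h : Eqv p f g) : Eqv p g f := by
  obtain ⟨u, hu, hu'⟩ := h
  refine ⟨fun x => - u x, hu.neg, fun x => ?_⟩
  haveI : ExpChar K p := ExpChar.prime hp.out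
  have h1 : (-u x) ^ p = - (u x) ^ p := by
    have := sub_pow_expChar (p := p) (0 : K) (u x)
    rw [zero_sub, zero_pow hp.out.ne_zero, zero_sub] at this
    exact this
  rw [h1]
  linear_combination - hu' x

theorem Eqv.trans {f g k : (ι → K) → K} (h : Eqv p f g) (h' : Eqv p g k) : Eqv p f k := by
  obtain ⟨u, hu, hu'⟩ := h
  obtain ⟨v, hv, hv'⟩ := h'
  refine ⟨fun x => u x + v x, hu.add hv, fun x => ?_⟩
  haveI : ExpChar K p := ExpChar.prime hp.out
  rw [add_pow_expChar]
  linear_combination hu' x + hv' x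

theorem Eqv.sum {α : Type*} (s : Finset α) {f g : α → (ι → K) → K}
    (h : ∀ a ∈ s, Eqv p (f a) (g a)) :
    Eqv p (fun x => ∑ a ∈ s, f a x) (fun x => ∑ a ∈ s, g a x) := by
  classical
  induction s using Finset.induction_on with
  | empty => simpa using Eqv.refl (p := p) (fun _ : ι → K => (0 : K))
  | insert a s ha ih =>
    have h1 := (h a (Finset.mem_insert_self _ _)).add
      (ih fun b hb => h b (Finset.mem_insert_of_mem hb))
    simpa [Finset.sum_insert ha] using h1

theorem Eqv.comp {f g : (ι → K) → K} (h : Eqv p f g) {φ : (κ → K) → (ι → K)}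
    (hφ : ∀ i, IsPerf p (fun x => φ x i)) : Eqv p (fun x => f (φ x)) (fun x => g (φ x)) := by
  obtain ⟨u, hu, hu'⟩ := h
  exact ⟨fun x => u (φ x), hu.comp hφ, fun x => hu' (φ x)⟩

/-- Frobenius acts trivially -/
theorem eqv_fr {f : (ι → K) → K} (hf : IsPerf p f) (s : ℤ) :
    Eqv p (fun x => fr K p s (f x)) f := by
  have key : ∀ n : ℕ, ∀ f : (ι → K) → K, IsPerf p f → Eqv p (fun x => f x ^ p ^ n) f := by
    intro n
    induction n with
    | zero => intro f _; simpa using Eqv.refl f
    | succ n ih =>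
      intro f hf
      refine Eqv.trans ?_ (ih f hf)
      refine ⟨fun x => f x ^ p ^ n, hf.pow _, fun x => ?_⟩
      show f x ^ p ^ (n + 1) - f x ^ p ^ n = (f x ^ p ^ n) ^ p - f x ^ p ^ n
      rw [pow_succ, pow_mul]
  obtain ⟨n, rfl | rfl⟩ := s.eq_nat_or_neg
  · simpa [fr_natCast] using key n f hf
  · have h1 := key n _ (hf.twist (-(n : ℤ)))
    have h2 : (fun x => (fr K p (-(n : ℤ)) (f x)) ^ p ^ n) = f := by
      funext x
      rw [← fr_natCast p n, fr_neg_self]
    rw [h2] at h1
    exact h1.symm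

end Pool.Agent.H856.AQ
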