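import Pool.Agent.H856.AQ.Affine

/-!
# The normal form of polynomials of weight two
-/

set_option autoImplicit false
set_option linter.unusedSectionVars false
set_option linter.style.haveILetI false

namespace Pool.Agent.H856.AQ

open MvPolynomial

/-- Polynomials of weight at most two: linear combinations of products of at most two factors
`X_i ^ (p ^ s)`. -/
noncomputable def weightTwo (K : Type*) [Field K] (p m : ℕ) : Submodule K (MvPolynomial (Fin m) K) :=
  Submodule.span K {P | P = 1 ∨ (∃ (i : Fin m) (s : ℕ), P = X i ^ p ^ s) ∨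
    ∃ (i j : Fin m) (s t : ℕ), P = X i ^ p ^ s * X j ^ p ^ t}

/-- Additive polynomials in one variable: linear combinations of the `X ^ (p ^ s)`. -/
noncomputable def additive (K : Type*) [Field K] (p : ℕ) : Submodule K (Polynomial K) :=
  Submodule.span K (Set.range fun s : ℕ => (Polynomial.X ^ p ^ s : Polynomial K))

/-- The hyperbolic forms `∑ x_(a i) L_i (x_(b i))`, or the same plus `x_u L_0 (x_u)`, with different
variables and additive polynomials, `L_i ≠ 0`. -/
def IsHyperbolic {K : Type*} [Field K] (p : ℕ) {m : ℕ} (r : ℕ) (g : MvPolynomial (Fin m) K) :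
    Prop :=
  ∃ (a b : Fin r → Fin m) (L : Fin r → Polynomial K),
    Function.Injective (Sum.elim a b) ∧ (∀ i, L i ∈ additive K p ∧ L i ≠ 0) ∧
    (g = ∑ i, X (a i) * Polynomial.aeval (X (b i)) (L i) ∨
      ∃ u ∉ Set.range (Sum.elim a b), ∃ L₀ ∈ additive K p, L₀ ≠ 0 ∧
        g = ∑ i, X (a i) * Polynomial.aeval (X (b i)) (L i) + X u * Polynomial.aeval (X u) L₀)

/-- the map of affine space to itself given by polynomials -/
noncomputable def polyMap {K : Type*} [Field K] {m : ℕ} (φ : Fin m → MvPolynomial (Fin m) K)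
    (x : Fin m → K) : Fin m → K := fun i => eval x (φ i)

variable {K : Type*} [Field K] [IsAlgClosed K] {p : ℕ} [hp : Fact p.Prime] [CharP K p]

section twist

variable {ι : Type}

/-- the power map -/
def pw (p E : ℕ) (x : ι → K) : ι → K := fun i => x i ^ p ^ E

theorem pw_bijective (E : ℕ) : Function.Bijective (pw (K := K) (ι := ι) p E) := by
  refine Function.bijective_iff_has_inverse.2 ⟨fun x i => fr K p (-(E : ℤ)) (x i), fun x => ?_,
    fun x => ?_⟩
  · funext i
    show fr K p (-(E : ℤ)) (x i ^ p ^ E) = x i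
    rw [← fr_natCast p E, fr_self_neg]
  · funext i
    show (fr K p (-(E : ℤ)) (x i)) ^ p ^ E = x i
    rw [← fr_natCast p E, fr_neg_self]

theorem IsPerf.exists_poly {g : (ι → K) → K} (hg : IsPerf p g) :
    ∃ E₀ : ℕ, ∀ E, E₀ ≤ E → ∃ G : MvPolynomial ι K, ∀ x, eval x G = g (pw p E x) := by
  obtain ⟨N, P, hP⟩ := hg
  refine ⟨N, fun E hE => ?_⟩
  obtain ⟨k, rfl⟩ := Nat.exists_eq_add_of_le hE
  set σ : K →+* K := (fr K p (-(N : ℤ))).toRingHom with hσ
  refine ⟨aeval (fun i => (X i ^ p ^ k : MvPolynomial ι K)) (map σ P), fun x => ?_⟩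
  have h1 : (eval x (aeval (fun i => (X i ^ p ^ k : MvPolynomial ι K)) (map σ P))) ^ p ^ N =
      (g (pw p (N + k) x)) ^ p ^ N := by
    rw [hP]
    have h2 : eval x (aeval (fun i => (X i ^ p ^ k : MvPolynomial ι K)) (map σ P)) =
        eval (fun i => x i ^ p ^ k) (map σ P) := by
      generalize map σ P = Q
      induction Q using MvPolynomial.induction_on with
      | C a => simp
      | add P Q hP hQ => simp only [map_add, hP, hQ]
      | mul_X P i hP => simp only [map_mul, hP, aeval_X, eval_X, map_pow]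
    rw [h2]
    have h3 : (fun i => x i ^ p ^ k) = fun i => σ ((pw p (N + k) x) i) := by
      funext i
      show _ = fr K p (-(N : ℤ)) (x i ^ p ^ (N + k))
      rw [add_comm N k, pow_add, pow_mul, ← fr_natCast p N, fr_self_neg]
    rw [h3, eval_map, ← hom_eval₂_eq]
    show (fr K p (-(N : ℤ)) (eval (pw p (N + k) x) P)) ^ p ^ N = _
    rw [← fr_natCast p N, fr_neg_self]
  haveI : ExpChar K p := ExpChar.prime hp.out
  exact iterateFrobenius_inj K p N h1
where
  hom_eval₂_eq {σ : K →+* K} {y : ι → K} {P : MvPolynomial ι K} :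
      σ (eval y P) = eval₂ σ (fun i => σ (y i)) P := by
    induction P using MvPolynomial.induction_on with
    | C a => simp
    | add P Q hP hQ => simp only [map_add, eval₂_add, hP, hQ]
    | mul_X P i hP => simp [hP]

theorem exists_artin_schreier (G : MvPolynomial ι K) (E : ℕ) :
    ∃ W : MvPolynomial ι K, G ^ p ^ E = G + (W ^ p - W) := by
  haveI : CharP (MvPolynomial ι K) p := inferInstance
  haveI : ExpChar (MvPolynomial ι K) p := ExpChar.prime hp.out
  induction E with
  | zero => exact ⟨0, by simp [hp.out.ne_zero]⟩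
  | succ E ih =>
    obtain ⟨W, hW⟩ := ih
    refine ⟨G ^ p ^ E + W, ?_⟩
    rw [add_pow_expChar, ← pow_mul, ← pow_succ]
    linear_combination hW

end twist

/-- decomposition of polynomials of weight two -/
theorem exists_decomp {m : ℕ} {f : MvPolynomial (Fin m) K} (hf : f ∈ weightTwo K p m) :
    ∃ (q l : (Fin m → K) → K) (c : K), QuadOn p Finset.univ q ∧ LinOn p Finset.univ l ∧
      ∀ x, eval x f = q x + l x + c := by
  suffices h : ∀ e : K, ∃ (q l : (Fin m → K) → K) (c : K), QuadOn p Finset.univ q ∧
      LinOn p Finset.univ l ∧ ∀ x, e * eval x f = q x + l x + c by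
    simpa using h 1
  unfold weightTwo at hf
  induction hf using Submodule.span_induction with
  | mem P hP =>
    intro e
    rcases hP with rfl | ⟨i, s, rfl⟩ | ⟨i, j, s, t, rfl⟩
    · exact ⟨fun _ => 0, fun _ => 0, e, QuadOn.zero, LinOn.zero, fun x => by simp⟩
    · refine ⟨fun _ => 0, fun x => e * fr K p s (x i), 0, QuadOn.zero,
        linOn_single (isAdd_single _ _) (Finset.mem_univ i), fun x => ?_⟩
      simp [fr_natCast]
    · refine ⟨fun x => (e * fr K p s (x i)) * (1 * fr K p t (x j)), fun _ => 0, 0,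
        (linOn_single (isAdd_single _ _) (Finset.mem_univ i)).mul
          (linOn_single (isAdd_single _ _) (Finset.mem_univ j)), LinOn.zero, fun x => ?_⟩
      simp only [fr_natCast, map_mul, map_pow, eval_X]
      ring
  | zero =>
    intro e
    exact ⟨fun _ => 0, fun _ => 0, 0, QuadOn.zero, LinOn.zero, fun x => by simp⟩
  | add P Q _ _ hP hQ =>
    intro e
    obtain ⟨q, l, c, hq, hl, h⟩ := hP e
    obtain ⟨q', l', c', hq', hl', h'⟩ := hQ e
    refine ⟨fun x => q x + q' x, fun x => l x + l' x, c + c', hq.add hq', hl.add hl', fun x => ?_⟩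
    rw [map_add, mul_add, h, h']
    ring
  | smul a P _ hP =>
    intro e
    obtain ⟨q, l, c, hq, hl, h⟩ := hP (e * a)
    refine ⟨q, l, c, hq, hl, fun x => ?_⟩
    rw [← h, smul_eval]
    ring

/-- roots of additive functions -/
theorem IsPos.exists_poly {A : K → K} (hA : IsPos p A) (hA0 : A ≠ 0) (E : ℕ) :
    ∃ L ∈ additive K p, L ≠ 0 ∧ ∀ x, (L.eval x) ^ p ^ E = A (x ^ p ^ E) := by
  haveI : ExpChar K p := ExpChar.prime hp.out
  obtain ⟨n, b, hb⟩ := hA
  have key : ∀ x, (∑ s : Fin n, Polynomial.C (fr K p (-(E : ℤ)) (b s)) *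
      Polynomial.X ^ p ^ (s : ℕ) : Polynomial K).eval x ^ p ^ E = A (x ^ p ^ E) := by
    intro x
    rw [hb, lin, Polynomial.eval_finsetSum, ← iterateFrobenius_def, map_sum]
    refine Finset.sum_congr rfl fun s _ => ?_
    rw [iterateFrobenius_def, Polynomial.eval_mul, Polynomial.eval_C, Polynomial.eval_pow,
      Polynomial.eval_X, mul_pow, ← fr_natCast p E, fr_neg_self, fr_natCast, ← pow_mul, ← pow_mul,
      mul_comm (p ^ E)]
  refine ⟨∑ s : Fin n, Polynomial.C (fr K p (-(E : ℤ)) (b s)) * Polynomial.X ^ p ^ (s : ℕ),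
    ?_, ?_, key⟩
  · refine Submodule.sum_mem _ fun s _ => ?_
    rw [← Polynomial.smul_eq_C_mul]
    exact Submodule.smul_mem _ _ (Submodule.subset_span ⟨s, rfl⟩)
  · intro h0
    apply hA0
    funext y
    have h1 := key (fr K p (-(E : ℤ)) y)
    rw [h0, Polynomial.eval_zero, zero_pow (pow_ne_zero _ hp.out.ne_zero), ← fr_natCast p E,
      fr_neg_self] at h1
    exact h1.symm

theorem eval_aeval_X {m : ℕ} (L : Polynomial K) (j : Fin m) (x : Fin m → K) :
    eval x (Polynomial.aeval (X j) L) = L.eval (x j) := by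
  induction L using Polynomial.induction_on' with
  | add P Q hP hQ => simp only [map_add, hP, hQ, Polynomial.eval_add]
  | monomial n a => simp [Polynomial.aeval_monomial]

theorem eval_polyMap {m : ℕ} (φ : Fin m → MvPolynomial (Fin m) K) (f : MvPolynomial (Fin m) K)
    (x : Fin m → K) : eval x (aeval φ f) = eval (polyMap φ x) f := by
  induction f using MvPolynomial.induction_on with
  | C a => simp
  | add P Q hP hQ => simp only [map_add, hP, hQ]
  | mul_X P i hP => simp only [map_mul, hP, aeval_X, eval_X]; rfl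

/-- **The normal form of polynomials of weight two.** -/
theorem normal_poly (m : ℕ) (f : MvPolynomial (Fin m) K) (hf : f ∈ weightTwo K p m) :
    ∃ (φ : Fin m → MvPolynomial (Fin m) K) (g h : MvPolynomial (Fin m) K),
      Function.Surjective (polyMap φ) ∧ (∀ y, {x | polyMap φ x = y}.Finite) ∧
      aeval φ f = g + (h ^ p - h) ∧ ((∃ t, g = X t) ∨ ∃ r, IsHyperbolic p r g) := by
  classical
  haveI : ExpChar K p := ExpChar.prime hp.out
  haveI : CharP (MvPolynomial (Fin m) K) p := inferInstance
  haveI : ExpChar (MvPolynomial (Fin m) K) p := ExpChar.prime hp.out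
  obtain ⟨q, l, c, hq, hl, hdec⟩ := exists_decomp hf
  obtain ⟨φ, hφ, hcase⟩ := affine_normal hq hl
  -- the general step: from an equivalence of functions to polynomials
  have step : ∀ N : (Fin m → K) → K, IsPerf p N →
      Eqv p (fun x => q (φ x) + l (φ x)) N → ∃ E₀ : ℕ, ∀ E, E₀ ≤ E →
      ∃ (Φ : Fin m → MvPolynomial (Fin m) K) (H : MvPolynomial (Fin m) K),
        Function.Surjective (polyMap Φ) ∧ (∀ y, {x | polyMap Φ x = y}.Finite) ∧
        ∀ x, eval x (aeval Φ f) = N (pw p E x) + eval x (H ^ p - H) := by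
    intro N hN hE
    have h1 : Eqv p (fun x => eval (φ x) f) N := by
      have h2 := hE.add (eqv_const (ι := Fin m) (p := p) c)
      refine Eqv.trans (Eqv.of_eq fun x => ?_) (h2.trans (Eqv.of_eq fun x => ?_))
      · rw [hdec]
      · rw [add_zero]
    obtain ⟨w, hw, hw'⟩ := h1
    obtain ⟨E1, hE1⟩ := hw.exists_poly
    choose E2 hE2 using fun i => (hφ.perf i).exists_poly
    refine ⟨max E1 (Finset.univ.sup E2), fun E hEE => ?_⟩
    obtain ⟨H, hH⟩ := hE1 E (le_trans (le_max_left _ _) hEE)
    choose Φ hΦ using fun i => hE2 i E (le_trans (Finset.le_sup (Finset.mem_univ i))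
      (le_trans (le_max_right _ _) hEE))
    have hmap : polyMap Φ = fun x => φ (pw p E x) := by
      funext x i
      exact hΦ i x
    refine ⟨Φ, H, ?_, ?_, ?_⟩
    · rw [hmap]
      exact hφ.surj.comp (pw_bijective E).2
    · intro y
      rw [hmap]
      exact Set.Finite.preimage (fun a _ b _ h => (pw_bijective E).1 h) (hφ.fin y)
    · intro x
      rw [eval_polyMap, hmap, map_sub, map_pow, hH]
      have := hw' (pw p E x)
      linear_combination this
  rcases hcase with ⟨t, c₁, N, hc₁, hN, hNt, hE⟩ | ⟨r, a, b, M, g, hinj, hM, hM0, hg, hE⟩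
  · -- a free variable
    obtain ⟨E1, hE1⟩ := step _ (((isPerf_const c₁).mul (isPerf_proj t)).add hN) hE
    obtain ⟨E2, hE2⟩ := hN.exists_poly
    obtain ⟨Φ, H, hΦs, hΦf, hΦ⟩ := hE1 (max E1 E2) (le_max_left _ _)
    obtain ⟨N', hN'⟩ := hE2 (max E1 E2) (le_max_right _ _)
    set E := max E1 E2 with hEdef
    set c₂ := fr K p (-(E : ℤ)) c₁ with hc₂
    have hc₂0 : c₂ ≠ 0 := by
      rw [hc₂, Ne, map_eq_zero_iff _ (fr K p (-(E : ℤ))).injective]
      exact hc₁
    obtain ⟨W, hW⟩ := exists_artin_schreier (p := p) (C c₂ * X t : MvPolynomial (Fin m) K) E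
    -- the automorphism
    set α : Fin m → MvPolynomial (Fin m) K := fun i => if i = t then C c₂⁻¹ * (X t - N') else X i
      with hα
    have hαx : ∀ x i, polyMap α x i = if i = t then c₂⁻¹ * (x t - eval x N') else x i := by
      intro x i
      show eval x (α i) = _
      rw [hα]
      by_cases h : i = t
      · simp [h]
      · simp [h]
    have hN't : ∀ x y : Fin m → K, (∀ i, i ≠ t → x i = y i) → eval x N' = eval y N' := by
      intro x y hxy
      rw [hN', hN']
      exact hNt _ _ fun i hi => by
        show x i ^ _ = y i ^ _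
        rw [hxy i hi]
    have hαb : Function.Bijective (polyMap α) := by
      refine Function.bijective_iff_has_inverse.2
        ⟨fun x i => if i = t then c₂ * x t + eval x N' else x i, fun x => ?_, fun x => ?_⟩
      · funext i
        have h1 : eval (polyMap α x) N' = eval x N' :=
          hN't _ _ fun j hj => by rw [hαx, if_neg hj]
        by_cases h : i = t
        · simp only [h, if_true]
          rw [h1, hαx, if_pos rfl, mul_inv_cancel_left₀ hc₂0, sub_add_cancel]
        · simp only [if_neg h]
          rw [hαx, if_neg h]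
      · funext i
        rw [hαx]
        have h1 : eval (fun i => if i = t then c₂ * x t + eval x N' else x i) N' = eval x N' :=
          hN't _ _ fun j hj => by rw [if_neg hj]
        by_cases h : i = t
        · subst h
          simp only [if_true]
          rw [h1, add_sub_cancel_right, inv_mul_cancel_left₀ hc₂0]
        · simp only [if_neg h]
    refine ⟨fun i => aeval α (Φ i), X t, aeval α (H + W), ?_, ?_, ?_, Or.inl ⟨t, rfl⟩⟩
    · have : polyMap (fun i => aeval α (Φ i)) = fun x => polyMap Φ (polyMap α x) := by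
        funext x i
        exact eval_polyMap _ _ _
      rw [this]
      exact hΦs.comp hαb.2
    · intro y
      have : polyMap (fun i => aeval α (Φ i)) = fun x => polyMap Φ (polyMap α x) := by
        funext x i
        exact eval_polyMap _ _ _
      rw [this]
      exact Set.Finite.preimage (fun a _ b _ h => hαb.1 h) (hΦf y)
    · apply MvPolynomial.funext
      intro x
      have e0 : eval x (aeval (fun i => aeval α (Φ i)) f) = eval (polyMap α x) (aeval Φ f) := by
        have e4 : polyMap (fun i => aeval α (Φ i)) x = polyMap Φ (polyMap α x) := by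
          funext i
          exact eval_polyMap _ _ _
        rw [eval_polyMap, eval_polyMap, e4]
      have e1 : N (pw p E (polyMap α x)) = eval x N' := by
        rw [← hN']
        exact hN't _ _ fun j hj => by rw [hαx, if_neg hj]
      have e2 : c₁ * pw p E (polyMap α x) t = eval (polyMap α x) ((C c₂ * X t) ^ p ^ E) := by
        simp only [map_pow, map_mul, eval_C, eval_X, mul_pow]
        rw [hc₂, ← fr_natCast p E, fr_neg_self]
        rfl
      have e3 : eval (polyMap α x) (C c₂ * X t) = x t - eval x N' := by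
        simp only [map_mul, eval_C, eval_X]
        rw [hαx, if_pos rfl, mul_inv_cancel_left₀ hc₂0]
      rw [e0, hΦ, e1, e2, hW]
      simp only [map_add, map_sub, map_pow, eval_polyMap, e3, eval_X]
      rw [add_pow_expChar]
      ring
  · -- the hyperbolic case
    have hgperf : IsPerf p g := by
      rcases hg with h | ⟨u, _, M₀, hM₀, h⟩
      · have : g = fun _ => 0 := funext h
        rw [this]
        exact isPerf_const _
      · have : g = fun x => x u * M₀ (x u) := funext h
        rw [this]
        exact (isPerf_proj u).mul (hM₀.isAdd.perf (isPerf_proj u))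
    obtain ⟨E, hE1⟩ := step _ ((IsPerf.sum _ fun i _ => (isPerf_proj _).mul
      ((hM i).isAdd.perf (isPerf_proj _))).add hgperf) hE
    obtain ⟨Φ, H, hΦs, hΦf, hΦ⟩ := hE1 E le_rfl
    choose L hL hL0 hLe using fun i => (hM i).exists_poly (hM0 i) E
    -- the last term
    obtain ⟨G₀, hG₀, hGe⟩ : ∃ G₀ : MvPolynomial (Fin m) K, (G₀ = 0 ∨
        ∃ u ∉ Set.range (Sum.elim a b), ∃ L₀ ∈ additive K p, L₀ ≠ 0 ∧
          G₀ = X u * Polynomial.aeval (X u) L₀) ∧ ∀ x, eval x G₀ ^ p ^ E = g (pw p E x) := by
      rcases hg with h | ⟨u, hu, M₀, hM₀, h⟩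
      · exact ⟨0, Or.inl rfl, fun x => by
          rw [h, map_zero, zero_pow (pow_ne_zero _ hp.out.ne_zero)]⟩
      · by_cases hM₀0 : M₀ = 0
        · refine ⟨0, Or.inl rfl, fun x => ?_⟩
          rw [h, map_zero, zero_pow (pow_ne_zero _ hp.out.ne_zero), hM₀0, Pi.zero_apply, mul_zero]
        · obtain ⟨L₀, hL₀, hL₀0, hL₀e⟩ := hM₀.exists_poly hM₀0 E
          refine ⟨X u * Polynomial.aeval (X u) L₀, Or.inr ⟨u, hu, L₀, hL₀, hL₀0, rfl⟩,
            fun x => ?_⟩
          rw [map_mul, eval_X, eval_aeval_X, mul_pow, hL₀e, h]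
          rfl
    set G : MvPolynomial (Fin m) K := ∑ i, X (a i) * Polynomial.aeval (X (b i)) (L i) + G₀ with hG
    obtain ⟨W, hW⟩ := exists_artin_schreier (p := p) G E
    refine ⟨Φ, G, H + W, hΦs, hΦf, ?_, Or.inr ⟨r, a, b, L, hinj, fun i => ⟨hL i, hL0 i⟩, ?_⟩⟩
    · apply MvPolynomial.funext
      intro x
      have e1 : ∑ i, pw p E x (a i) * M i (pw p E x (b i)) + g (pw p E x) =
          eval x (G ^ p ^ E) := by
        rw [map_pow, hG, map_add, ← iterateFrobenius_def, map_add, iterateFrobenius_def,
          iterateFrobenius_def, hGe]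
        congr 1
        rw [map_sum, ← iterateFrobenius_def, map_sum]
        refine Finset.sum_congr rfl fun i _ => ?_
        rw [iterateFrobenius_def, map_mul, eval_X, eval_aeval_X, mul_pow, hLe]
        rfl
      rw [hΦ, e1, hW]
      simp only [map_add, map_sub, map_pow]
      rw [add_pow_expChar]
      ring
    · rcases hG₀ with h | ⟨u, hu, L₀, hL₀, hL₀0, h⟩
      · left
        rw [hG, h, add_zero]
      · right
        exact ⟨u, hu, L₀, hL₀, hL₀0, by rw [hG, h]⟩

end Pool.Agent.H856.AQ
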