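import Pool.Agent.H856.AQ.Solve

/-!
# Quadratic forms in additive functions: the hyperbolic normal form
-/

set_option autoImplicit false
set_option linter.unusedSectionVars false
set_option linter.style.haveILetI false

namespace Pool.Agent.H856.AQ

open MvPolynomial

variable {K : Type*} [Field K] [IsAlgClosed K] {p : ℕ} [hp : Fact p.Prime] [CharP K p]
variable {ι : Type}

/-- additive functions of the variables in `S` -/
def LinOn (p : ℕ) [Fact p.Prime] [CharP K p] (S : Finset ι) (A : (ι → K) → K) : Prop :=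
  ∃ C : ι → K → K, (∀ i, IsAdd p (C i)) ∧ ∀ x, A x = ∑ i ∈ S, C i (x i)

/-- quadratic functions of the variables in `S`, up to equivalence -/
def QuadOn (p : ℕ) [Fact p.Prime] [CharP K p] (S : Finset ι) (f : (ι → K) → K) : Prop :=
  ∃ L : ι → ι → K → K, (∀ i j, IsAdd p (L i j)) ∧
    Eqv p f (fun x => ∑ i ∈ S, ∑ j ∈ S, x i * L i j (x j))

/-- isogenies in the variables in `S` -/
structure Isog (p : ℕ) [Fact p.Prime] [CharP K p] (S : Finset ι) (φ : (ι → K) → (ι → K)) :
    Prop where
  fix : ∀ x, ∀ i ∉ S, φ x i = x i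
  lin : ∀ i ∈ S, LinOn p S (fun x => φ x i)
  surj : Function.Surjective φ
  fin : ∀ y, {x | φ x = y}.Finite

theorem LinOn.perf {S : Finset ι} {A : (ι → K) → K} (hA : LinOn p S A) : IsPerf p A := by
  obtain ⟨C, hC, h⟩ := hA
  have : A = fun x => ∑ i ∈ S, C i (x i) := funext h
  rw [this]
  exact IsPerf.sum _ fun i _ => (hC i).perf (isPerf_proj i)

theorem linOn_single {S : Finset ι} {A : K → K} (hA : IsAdd p A) {i : ι} (hi : i ∈ S) :
    LinOn p S (fun x : ι → K => A (x i)) := by
  classical
  refine ⟨fun j x => if j = i then A x else 0, fun j => ?_, fun x => ?_⟩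
  · by_cases h : j = i
    · simpa [h] using hA
    · simpa [h] using isAdd_zero (p := p) (K := K)
  · rw [Finset.sum_eq_single i]
    · simp
    · intro j _ hj
      simp [hj]
    · intro h
      exact absurd hi h

theorem LinOn.add {S : Finset ι} {A B : (ι → K) → K} (hA : LinOn p S A) (hB : LinOn p S B) :
    LinOn p S (fun x => A x + B x) := by
  obtain ⟨C, hC, h⟩ := hA
  obtain ⟨D, hD, h'⟩ := hB
  exact ⟨fun i x => C i x + D i x, fun i => (hC i).add (hD i), fun x => by
    simp only [h, h', Finset.sum_add_distrib]⟩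

theorem LinOn.zero {S : Finset ι} : LinOn p S (fun _ : ι → K => 0) :=
  ⟨fun _ _ => 0, fun _ => isAdd_zero, fun x => by simp⟩

theorem LinOn.sum {α : Type*} {S : Finset ι} (s : Finset α) {A : α → (ι → K) → K}
    (hA : ∀ a ∈ s, LinOn p S (A a)) : LinOn p S (fun x => ∑ a ∈ s, A a x) := by
  classical
  induction s using Finset.induction_on with
  | empty => simpa using LinOn.zero (p := p) (K := K) (S := S)
  | insert a s ha ih =>
    have h1 := (hA a (Finset.mem_insert_self _ _)).add
      (ih fun b hb => hA b (Finset.mem_insert_of_mem hb))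
    simpa [Finset.sum_insert ha] using h1

theorem LinOn.mono {S T : Finset ι} (h : S ⊆ T) {A : (ι → K) → K} (hA : LinOn p S A) :
    LinOn p T A := by
  obtain ⟨C, hC, h'⟩ := hA
  have h2 : A = fun x => ∑ i ∈ S, C i (x i) := funext h'
  rw [h2]
  exact LinOn.sum _ fun i hi => linOn_single (hC i) (h hi)

/-- applying an additive function -/
theorem LinOn.apply {S : Finset ι} {A : (ι → K) → K} (hA : LinOn p S A) {B : K → K}
    (hB : IsAdd p B) : LinOn p S (fun x => B (A x)) := by
  obtain ⟨C, hC, h⟩ := hA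
  exact ⟨fun i x => B (C i x), fun i => hB.comp (hC i), fun x => by simp only [h, hB.map_sum]⟩

theorem LinOn.comp {S T : Finset ι} {A : (ι → K) → K} (hA : LinOn p S A)
    {φ : (ι → K) → (ι → K)} (hφ : ∀ i ∈ S, LinOn p T (fun x => φ x i)) :
    LinOn p T (fun x => A (φ x)) := by
  obtain ⟨C, hC, h⟩ := hA
  have h2 : (fun x => A (φ x)) = fun x => ∑ i ∈ S, C i (φ x i) := funext fun x => h _
  rw [h2]
  exact LinOn.sum _ fun i hi => (hφ i hi).apply (hC i)

theorem QuadOn.congr {S : Finset ι} {f g : (ι → K) → K} (hf : QuadOn p S f) (h : Eqv p g f) :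
    QuadOn p S g := by
  obtain ⟨L, hL, h'⟩ := hf
  exact ⟨L, hL, h.trans h'⟩

theorem QuadOn.add {S : Finset ι} {f g : (ι → K) → K} (hf : QuadOn p S f) (hg : QuadOn p S g) :
    QuadOn p S (fun x => f x + g x) := by
  obtain ⟨L, hL, h⟩ := hf
  obtain ⟨M, hM, h'⟩ := hg
  refine ⟨fun i j x => L i j x + M i j x, fun i j => (hL i j).add (hM i j), ?_⟩
  refine (h.add h').trans (Eqv.of_eq fun x => ?_)
  simp only [mul_add, Finset.sum_add_distrib]

theorem QuadOn.zero {S : Finset ι} : QuadOn p S (fun _ : ι → K => 0) :=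
  ⟨fun _ _ _ => 0, fun _ _ => isAdd_zero, Eqv.of_eq fun x => by simp⟩

theorem QuadOn.sum {α : Type*} {S : Finset ι} (s : Finset α) {f : α → (ι → K) → K}
    (hf : ∀ a ∈ s, QuadOn p S (f a)) : QuadOn p S (fun x => ∑ a ∈ s, f a x) := by
  classical
  induction s using Finset.induction_on with
  | empty => simpa using QuadOn.zero (p := p) (K := K) (S := S)
  | insert a s ha ih =>
    have h1 := (hf a (Finset.mem_insert_self _ _)).add
      (ih fun b hb => hf b (Finset.mem_insert_of_mem hb))
    simpa [Finset.sum_insert ha] using h1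

/-- products of additive functions are quadratic -/
theorem LinOn.mul {S : Finset ι} {A B : (ι → K) → K} (hA : LinOn p S A) (hB : LinOn p S B) :
    QuadOn p S (fun x => A x * B x) := by
  obtain ⟨C, hC, h⟩ := hA
  obtain ⟨D, hD, h'⟩ := hB
  choose C' hC' hC0 hC1 using fun i => (hC i).exists_adj
  refine ⟨fun i j x => C' i (D j x), fun i j => (hC' i).comp (hD j), ?_⟩
  have h1 : Eqv p (fun x => A x * B x) (fun x => ∑ i ∈ S, ∑ j ∈ S, D j (x j) * C i (x i)) :=
    Eqv.of_eq fun x => by
      rw [h, h', Finset.sum_mul]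
      refine Finset.sum_congr rfl fun i _ => ?_
      rw [Finset.mul_sum]
      exact Finset.sum_congr rfl fun j _ => mul_comm _ _
  refine h1.trans (Eqv.sum _ fun i _ => Eqv.sum _ fun j _ => ?_)
  exact hC1 i ι (fun x => D j (x j)) (fun x => x i) ((hD j).perf (isPerf_proj j)) (isPerf_proj i)

theorem QuadOn.comp {S T : Finset ι} {f : (ι → K) → K} (hf : QuadOn p S f)
    {φ : (ι → K) → (ι → K)} (hφ : ∀ i ∈ S, LinOn p T (fun x => φ x i))
    (hperf : ∀ i, IsPerf p (fun x => φ x i)) : QuadOn p T (fun x => f (φ x)) := by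
  obtain ⟨L, hL, h⟩ := hf
  refine QuadOn.congr ?_ (h.comp hperf)
  refine QuadOn.sum _ fun i hi => QuadOn.sum _ fun j hj => ?_
  exact (hφ i hi).mul ((hφ j hj).apply (hL i j))

theorem QuadOn.mono {S T : Finset ι} (h : S ⊆ T) {f : (ι → K) → K} (hf : QuadOn p S f) :
    QuadOn p T f :=
  hf.comp (φ := fun x => x) (fun _ hi => linOn_single isAdd_id (h hi)) (fun i => isPerf_proj i)

/-- splitting off one variable -/
theorem QuadOn.split [DecidableEq ι] {S : Finset ι} {f : (ι → K) → K} (hf : QuadOn p S f) {i₀ : ι}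
    (hi : i₀ ∈ S) : ∃ A g : (ι → K) → K, LinOn p S A ∧ QuadOn p (S.erase i₀) g ∧
      Eqv p f (fun x => x i₀ * A x + g x) := by
  obtain ⟨L, hL, h⟩ := hf
  choose L' hL' _ hL1 using fun i j => (hL i j).exists_adj
  refine ⟨fun x => ∑ j ∈ S, L i₀ j (x j) + ∑ i ∈ S.erase i₀, L' i i₀ (x i),
    fun x => ∑ i ∈ S.erase i₀, ∑ j ∈ S.erase i₀, x i * L i j (x j), ?_, ?_, ?_⟩
  · exact (LinOn.sum _ fun j hj => linOn_single (hL _ _) hj).add
      (LinOn.sum _ fun i hi' => linOn_single (hL' _ _) (Finset.mem_of_mem_erase hi'))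
  · exact ⟨L, hL, Eqv.refl _⟩
  · have h1 : Eqv p f (fun x => (∑ j ∈ S, x i₀ * L i₀ j (x j) +
        ∑ i ∈ S.erase i₀, x i * L i i₀ (x i₀)) +
        ∑ i ∈ S.erase i₀, ∑ j ∈ S.erase i₀, x i * L i j (x j)) := by
      refine h.trans (Eqv.of_eq fun x => ?_)
      rw [← Finset.add_sum_erase S _ hi, add_assoc, ← Finset.sum_add_distrib]
      congr 1
      refine Finset.sum_congr rfl fun i _ => ?_
      rw [← Finset.add_sum_erase S _ hi]
    refine h1.trans ?_
    refine Eqv.add ?_ (Eqv.refl _)
    have h2 : Eqv p (fun x => ∑ j ∈ S, x i₀ * L i₀ j (x j) +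
        ∑ i ∈ S.erase i₀, x i * L i i₀ (x i₀)) (fun x => ∑ j ∈ S, x i₀ * L i₀ j (x j) +
        ∑ i ∈ S.erase i₀, x i₀ * L' i i₀ (x i)) :=
      (Eqv.refl _).add (Eqv.sum _ fun i _ =>
        hL1 i i₀ ι (fun x => x i) (fun x => x i₀) (isPerf_proj _) (isPerf_proj _))
    refine h2.trans (Eqv.of_eq fun x => ?_)
    rw [mul_add, Finset.mul_sum, Finset.mul_sum]

/-! ## isogenies -/

theorem Isog.perf {S : Finset ι} {φ : (ι → K) → (ι → K)} (h : Isog p S φ) (i : ι) :
    IsPerf p (fun x => φ x i) := by
  by_cases hi : i ∈ S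
  · exact (h.lin i hi).perf
  · have : (fun x => φ x i) = fun x => x i := funext fun x => h.fix x i hi
    rw [this]
    exact isPerf_proj i

theorem Isog.id (S : Finset ι) : Isog (K := K) p S (fun x => x) where
  fix := fun _ _ _ => rfl
  lin := fun _ hi => linOn_single isAdd_id hi
  surj := Function.surjective_id
  fin := fun y => by simp

theorem Isog.comp {S : Finset ι} {φ ψ : (ι → K) → (ι → K)} (h : Isog p S φ) (h' : Isog p S ψ) :
    Isog p S (fun x => φ (ψ x)) where
  fix := fun x i hi => by rw [h.fix _ i hi, h'.fix _ i hi]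
  lin := fun i hi => (h.lin i hi).comp h'.lin
  surj := h.surj.comp h'.surj
  fin := fun y => by
    have : {x | φ (ψ x) = y} = ⋃ z ∈ {z | φ z = y}, {x | ψ x = z} := by
      ext x
      simp
    rw [this]
    exact (h.fin y).biUnion fun z _ => h'.fin z

theorem Isog.mono {S T : Finset ι} (hST : S ⊆ T) {φ : (ι → K) → (ι → K)} (h : Isog p S φ) :
    Isog p T φ where
  fix := fun x i hi => h.fix x i fun h' => hi (hST h')
  lin := fun i hi => by
    by_cases hiS : i ∈ S
    · exact (h.lin i hiS).mono hST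
    · have : (fun x => φ x i) = fun x => x i := funext fun x => h.fix x i hiS
      rw [this]
      exact linOn_single isAdd_id hi
  surj := h.surj
  fin := h.fin

/-- diagonal isogenies -/
theorem isog_diag [Finite ι] {S : Finset ι} {D : ι → K → K} (hD : ∀ i, IsAdd p (D i))
    (hD0 : ∀ i, D i ≠ 0) (hDS : ∀ i ∉ S, ∀ x, D i x = x) :
    Isog p S (fun (x : ι → K) i => D i (x i)) where
  fix := fun x i hi => hDS i hi _
  lin := fun i hi => linOn_single (hD i) hi
  surj := fun y => by
    choose x hx using fun i => ((hD i).surj_finite (hD0 i)).1 (y i)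
    exact ⟨x, funext hx⟩
  fin := fun y => by
    have h1 : {x : ι → K | (fun i => D i (x i)) = y} = {x | ∀ i, x i ∈ {t | D i t = y i}} := by
      ext x
      simp [funext_iff]
    rw [h1]
    exact Set.Finite.pi' fun i => ((hD i).surj_finite (hD0 i)).2 (y i)

/-- bijective isogenies -/
theorem isog_bij {S : Finset ι} {φ : (ι → K) → (ι → K)} (hb : Function.Bijective φ)
    (hfix : ∀ x, ∀ i ∉ S, φ x i = x i) (hlin : ∀ i ∈ S, LinOn p S (fun x => φ x i)) :
    Isog p S φ where
  fix := hfix
  lin := hlin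
  surj := hb.2
  fin := fun y => by
    refine Set.Subsingleton.finite fun a ha b hb' => hb.1 ?_
    have ha' : φ a = y := ha
    have hb'' : φ b = y := hb'
    rw [ha', hb'']

/-- adding functions of the variable `i₀` to the other variables -/
theorem isog_shear [DecidableEq ι] {S : Finset ι} {i₀ : ι} (hi : i₀ ∈ S) {v : ι → K → K}
    (hv : ∀ i, IsAdd p (v i)) :
    Isog p S (fun (x : ι → K) i => if i ∈ S.erase i₀ then x i + v i (x i₀) else x i) := by
  refine isog_bij ?_ ?_ ?_
  · refine Function.bijective_iff_has_inverse.2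
      ⟨fun x i => if i ∈ S.erase i₀ then x i - v i (x i₀) else x i, fun x => ?_, fun x => ?_⟩
    · funext i
      by_cases h : i ∈ S.erase i₀
      · simp [h]
      · simp only [h, if_false]
    · funext i
      by_cases h : i ∈ S.erase i₀
      · simp [h]
      · simp only [h, if_false]
  · intro x i h
    rw [if_neg fun h' => h (Finset.mem_of_mem_erase h')]
  · intro i h
    by_cases h' : i ∈ S.erase i₀
    · simp only [h', if_true]
      exact (linOn_single isAdd_id h).add (linOn_single (hv i) hi)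
    · simp only [h', if_false]
      exact linOn_single isAdd_id h

/-- adding functions of the other variables to the variable `i₀` -/
theorem isog_coshear [DecidableEq ι] {S : Finset ι} {i₀ : ι} (hi : i₀ ∈ S) {P : ι → K → K}
    (hP : ∀ i, IsAdd p (P i)) :
    Isog p S (fun (x : ι → K) i => if i = i₀ then x i₀ + ∑ j ∈ S.erase i₀, P j (x j) else x i) := by
  have hne : ∀ j ∈ S.erase i₀, j ≠ i₀ := fun j hj => (Finset.mem_erase.1 hj).1
  refine isog_bij ?_ ?_ ?_
  · refine Function.bijective_iff_has_inverse.2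
      ⟨fun x i => if i = i₀ then x i₀ - ∑ j ∈ S.erase i₀, P j (x j) else x i, fun x => ?_,
        fun x => ?_⟩
    · funext i
      by_cases h : i = i₀
      · subst h
        simp only [if_true]
        rw [add_sub_assoc, ← Finset.sum_sub_distrib, Finset.sum_eq_zero, add_zero]
        intro j hj
        rw [if_neg (hne j hj), sub_self]
      · simp [h]
    · funext i
      by_cases h : i = i₀
      · subst h
        simp only [if_true]
        rw [sub_add, ← Finset.sum_sub_distrib, Finset.sum_eq_zero, sub_zero]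
        intro j hj
        rw [if_neg (hne j hj), sub_self]
      · simp [h]
  · intro x i h
    rw [if_neg]
    rintro rfl
    exact h hi
  · intro i h
    by_cases h' : i = i₀
    · simp only [h', if_true]
      exact (linOn_single isAdd_id hi).add (LinOn.sum _ fun j hj =>
        linOn_single (hP j) (Finset.mem_of_mem_erase hj))
    · simp only [h', if_false]
      exact linOn_single isAdd_id h

end Pool.Agent.H856.AQ
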