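import Pool.Agent.H856.AQ.Add

/-!
# The Ore condition and isotropic vectors
-/

set_option autoImplicit false
set_option linter.unusedSectionVars false
set_option linter.style.haveILetI false

namespace Pool.Agent.H856.AQ

open MvPolynomial

variable {K : Type*} [Field K] [IsAlgClosed K] {p : ℕ} [hp : Fact p.Prime] [CharP K p]

theorem ev_eq_sum {c : ℤ →₀ K} {T : Finset ℤ} (h : c.support ⊆ T) (x : K) :
    ev p c x = ∑ s ∈ T, c s * fr K p s x :=
  Finsupp.sum_of_support_subset _ h _ (fun _ _ => by rw [zero_mul])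

theorem exists_bound (c : ℤ →₀ K) : ∃ S : ℕ, c.support ⊆ Finset.Icc (-(S : ℤ)) S := by
  refine ⟨c.support.sup Int.natAbs, fun s hs => ?_⟩
  have := Finset.le_sup (f := Int.natAbs) hs
  rw [Finset.mem_Icc]
  omega

theorem exists_bound_finset {α : Type*} (t : Finset α) (c : α → ℤ →₀ K) :
    ∃ S : ℕ, ∀ a ∈ t, (c a).support ⊆ Finset.Icc (-(S : ℤ)) S := by
  classical
  choose S hS using fun a => exists_bound (c a)
  refine ⟨t.sup S, fun a ha s hs => ?_⟩
  have h1 := hS a hs
  have h2 := Finset.le_sup (f := S) ha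
  rw [Finset.mem_Icc] at h1 ⊢
  omega

/-- the additive function with the coefficients `b` in the degrees `0, ..., n - 1` -/
noncomputable def lin (p : ℕ) [Fact p.Prime] [CharP K p] {n : ℕ} (b : Fin n → K) (x : K) : K :=
  ∑ a : Fin n, b a * fr K p ((a : ℕ) : ℤ) x

theorem isAdd_lin {n : ℕ} (b : Fin n → K) : IsAdd p (lin p b) :=
  IsAdd.sum _ fun a _ => isAdd_single _ _

theorem lin_eq_zero {n : ℕ} {b : Fin n → K} (h : lin p b = 0) : b = 0 := by
  classical
  have h1 : ∑ a : Fin n, Finsupp.single ((a : ℕ) : ℤ) (b a) = 0 := by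
    apply ev_injective (p := p)
    intro x
    have h2 := congrFun h x
    have h3 : ∀ t : Finset (Fin n), ev p (∑ a ∈ t, Finsupp.single ((a : ℕ) : ℤ) (b a)) x =
        ∑ a ∈ t, b a * fr K p ((a : ℕ) : ℤ) x := by
      intro t
      induction t using Finset.induction_on with
      | empty => simp [ev_zero]
      | insert a t ha ih => rw [Finset.sum_insert ha, Finset.sum_insert ha, ev_add, ih, ev_single]
    rw [h3]
    exact h2
  ext a
  have h2 := DFunLike.congr_fun h1 ((a : ℕ) : ℤ)
  rw [Finsupp.finset_sum_apply, Finset.sum_eq_single a] at h2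
  · simpa using h2
  · intro b _ hba
    rw [Finsupp.single_apply, if_neg]
    intro h
    apply hba
    exact Fin.ext (by exact_mod_cast h)
  · intro h
    exact absurd (Finset.mem_univ a) h

/-- **The Ore condition.** -/
theorem ore {A B : K → K} (hA : IsAdd p A) (hB : IsAdd p B) (hA0 : A ≠ 0) :
    ∃ P Q : K → K, IsAdd p P ∧ IsAdd p Q ∧ Q ≠ 0 ∧ ∀ x, A (P x) + B (Q x) = 0 := by
  classical
  obtain ⟨c, hc⟩ := id hA
  obtain ⟨d, hd⟩ := id hB
  obtain ⟨S1, hS1⟩ := exists_bound c
  obtain ⟨S2, hS2⟩ := exists_bound d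
  set S := max S1 S2 with hS
  have hcS : c.support ⊆ Finset.Icc (-(S : ℤ)) S := fun s hs => by
    have := hS1 hs
    rw [Finset.mem_Icc] at this ⊢
    omega
  have hdS : d.support ⊆ Finset.Icc (-(S : ℤ)) S := fun s hs => by
    have := hS2 hs
    rw [Finset.mem_Icc] at this ⊢
    omega
  set n := 2 * S + 1 with hn
  set J := Finset.Icc (-(S : ℤ)) (S + n - 1) with hJ
  set I := Finset.Icc (-(S : ℤ)) S ×ˢ (Finset.univ : Finset (Fin n)) with hI
  -- the coefficients
  let g : J → (Bool × Fin n → K) → K := fun e b =>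
    ∑ q ∈ I with q.1 + ((q.2 : ℕ) : ℤ) = (e : ℤ), (c q.1 * fr K p q.1 (b (true, q.2)) +
      d q.1 * fr K p q.1 (b (false, q.2)))
  have hcard : Nat.card J < Nat.card (Bool × Fin n) := by
    rw [Nat.card_eq_fintype_card, Nat.card_eq_fintype_card, Fintype.card_coe, Int.card_Icc,
      Fintype.card_prod, Fintype.card_bool, Fintype.card_fin]
    omega
  obtain ⟨b, hb0, hb⟩ := exists_common_zero_perf' (p := p) hcard g
    (fun e => IsPerf.sum _ fun q _ => ((isPerf_const _).mul ((isPerf_proj _).twist _)).add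
      ((isPerf_const _).mul ((isPerf_proj _).twist _)))
    (fun e => Finset.sum_eq_zero fun q _ => by simp)
  set b1 : Fin n → K := fun a => b (true, a) with hb1
  set b2 : Fin n → K := fun a => b (false, a) with hb2
  have hsum : ∀ x, A (lin p b1 x) + B (lin p b2 x) = 0 := by
    intro x
    have h1 : A (lin p b1 x) + B (lin p b2 x) = ∑ q ∈ I, (c q.1 * fr K p q.1 (b (true, q.2)) +
      d q.1 * fr K p q.1 (b (false, q.2))) * fr K p (q.1 + ((q.2 : ℕ) : ℤ)) x := by
      rw [hc, hd, ev_eq_sum hcS, ev_eq_sum hdS, hI, Finset.sum_product, ← Finset.sum_add_distrib]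
      refine Finset.sum_congr rfl fun s _ => ?_
      rw [lin, lin, map_sum, map_sum, Finset.mul_sum, Finset.mul_sum, ← Finset.sum_add_distrib]
      refine Finset.sum_congr rfl fun a _ => ?_
      simp only [map_mul, fr_add]
      ring
    rw [h1, ← Finset.sum_fiberwise_of_maps_to (t := J) (g := fun q => q.1 + ((q.2 : ℕ) : ℤ))]
    · refine Finset.sum_eq_zero fun e he => ?_
      have h2 := hb ⟨e, he⟩
      have h3 : ∑ q ∈ I with q.1 + ((q.2 : ℕ) : ℤ) = e,
          (c q.1 * fr K p q.1 (b (true, q.2)) + d q.1 * fr K p q.1 (b (false, q.2))) *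
            fr K p (q.1 + ((q.2 : ℕ) : ℤ)) x =
          (∑ q ∈ I with q.1 + ((q.2 : ℕ) : ℤ) = e,
          (c q.1 * fr K p q.1 (b (true, q.2)) + d q.1 * fr K p q.1 (b (false, q.2)))) *
            fr K p e x := by
        rw [Finset.sum_mul]
        refine Finset.sum_congr rfl fun q hq => ?_
        rw [(Finset.mem_filter.1 hq).2]
      rw [h3]
      have h4 : ∑ q ∈ I with q.1 + ((q.2 : ℕ) : ℤ) = e,
          (c q.1 * fr K p q.1 (b (true, q.2)) + d q.1 * fr K p q.1 (b (false, q.2))) = 0 := h2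
      rw [h4, zero_mul]
    · intro q hq
      rw [hI, Finset.mem_product, Finset.mem_Icc] at hq
      rw [hJ, Finset.mem_Icc]
      have := q.2.2
      omega
  refine ⟨lin p b1, lin p b2, isAdd_lin _, isAdd_lin _, ?_, hsum⟩
  intro h0
  have h1 : lin p b1 ≠ 0 := by
    intro h1
    apply hb0
    have e1 := lin_eq_zero h1
    have e2 := lin_eq_zero h0
    ext ⟨ε, a⟩
    cases ε
    · exact congrFun e2 a
    · exact congrFun e1 a
  apply hA0
  funext y
  obtain ⟨x, rfl⟩ := (IsAdd.surj_finite (isAdd_lin (p := p) b1) h1).1 y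
  have h2 := hsum x
  rw [h0] at h2
  show A (lin p b1 x) = 0
  rw [← h2, Pi.zero_apply, hB.map_zero, add_zero]

/-- **Isotropic vectors.** -/
theorem isotropic {ι : Type*} (S : Finset ι) (hS : 2 ≤ S.card) (L : ι → ι → K → K)
    (hL : ∀ i j, IsAdd p (L i j)) :
    ∃ v : ι → K → K, (∀ i, IsAdd p (v i)) ∧ (∃ i ∈ S, v i ≠ 0) ∧
      ∀ (κ : Type) (T : (κ → K) → K), IsPerf p T →
        Eqv p (fun x => ∑ i ∈ S, ∑ j ∈ S, v i (T x) * L i j (v j (T x))) (fun _ => 0) := by
  classical
  choose c hc using hL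
  obtain ⟨S0, hS0⟩ := exists_bound_finset (S ×ˢ S) (fun q => c q.1 q.2)
  set n := S0 + 1 with hn
  set D := Finset.range (S0 + n) with hD
  set I : Finset ((ι × ι) × (Fin n × ℤ × Fin n)) :=
    (S ×ˢ S) ×ˢ ((Finset.univ : Finset (Fin n)) ×ˢ (Finset.Icc (-(S0 : ℤ)) S0) ×ˢ
      (Finset.univ : Finset (Fin n))) with hI
  -- extension by zero of a vector indexed by `S × Fin n`
  let ex : (S × Fin n → K) → ι → Fin n → K := fun b i a => if h : i ∈ S then b (⟨i, h⟩, a) else 0
  have hex : ∀ i a, IsPerf p (fun b : S × Fin n → K => ex b i a) := by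
    intro i a
    by_cases h : i ∈ S
    · have : (fun b : S × Fin n → K => ex b i a) = fun b => b (⟨i, h⟩, a) := by
        funext b
        exact dif_pos h
      rw [this]
      exact isPerf_proj _
    · have : (fun b : S × Fin n → K => ex b i a) = fun b => 0 := by
        funext b
        exact dif_neg h
      rw [this]
      exact isPerf_const _
  have hex0 : ∀ i a, ex 0 i a = 0 := by
    intro i a
    show (if h : i ∈ S then (0 : S × Fin n → K) (⟨i, h⟩, a) else 0) = 0
    split_ifs <;> rfl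
  let coef : (S × Fin n → K) → ((ι × ι) × (Fin n × ℤ × Fin n)) → K := fun b q =>
    ex b q.1.1 q.2.1 * (c q.1.1 q.1.2 q.2.2.1 * fr K p q.2.2.1 (ex b q.1.2 q.2.2.2))
  have hcoef : ∀ q, IsPerf p (fun b => coef b q) := fun q =>
    (hex _ _).mul ((isPerf_const _).mul ((hex _ _).twist _))
  have hcoef0 : ∀ q, coef 0 q = 0 := fun q => by
    show ex 0 _ _ * _ = 0
    rw [hex0, zero_mul]
  -- the exponents of a term
  let α : ((ι × ι) × (Fin n × ℤ × Fin n)) → ℤ := fun q => ((q.2.1 : ℕ) : ℤ)
  let β : ((ι × ι) × (Fin n × ℤ × Fin n)) → ℤ := fun q => q.2.2.1 + ((q.2.2.2 : ℕ) : ℤ)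
  let g : D → (S × Fin n → K) → K := fun e b =>
    ∑ q ∈ I with (β q - α q).natAbs = (e : ℕ), fr K p (-(min (α q) (β q))) (coef b q)
  have hcard : Nat.card D < Nat.card (S × Fin n) := by
    rw [Nat.card_eq_fintype_card, Nat.card_eq_fintype_card, Fintype.card_coe, Finset.card_range,
      Fintype.card_prod, Fintype.card_coe, Fintype.card_fin]
    nlinarith
  obtain ⟨b, hb0, hb⟩ := exists_common_zero_perf' (p := p) hcard g
    (fun e => IsPerf.sum _ fun q _ => (hcoef q).twist _)
    (fun e => Finset.sum_eq_zero fun q _ => by rw [hcoef0, map_zero])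
  refine ⟨fun i => lin p (ex b i), fun i => isAdd_lin _, ?_, ?_⟩
  · by_contra hcon
    push Not at hcon
    apply hb0
    ext ⟨⟨i, hi⟩, a⟩
    have h1 := congrFun (lin_eq_zero (hcon i hi)) a
    have h2 : ex b i a = b (⟨i, hi⟩, a) := dif_pos hi
    rw [h2] at h1
    exact h1
  · intro κ T hT
    have h1 : (fun x => ∑ i ∈ S, ∑ j ∈ S, lin p (ex b i) (T x) * L i j (lin p (ex b j) (T x))) =
        fun x => ∑ q ∈ I, coef b q * (fr K p (α q) (T x) * fr K p (β q) (T x)) := by
      funext x
      rw [hI, Finset.sum_product, Finset.sum_product]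
      refine Finset.sum_congr rfl fun i hi => Finset.sum_congr rfl fun j hj => ?_
      have hij := hS0 (i, j) (Finset.mem_product.2 ⟨hi, hj⟩)
      rw [hc, ev_eq_sum hij, Finset.sum_product]
      rw [lin, Finset.sum_mul]
      refine Finset.sum_congr rfl fun a _ => ?_
      rw [Finset.sum_product, Finset.mul_sum]
      refine Finset.sum_congr rfl fun s _ => ?_
      rw [lin, map_sum, Finset.mul_sum, Finset.mul_sum]
      refine Finset.sum_congr rfl fun a' _ => ?_
      show _ = ex b i a * (c i j s * fr K p s (ex b j a')) *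
        (fr K p ((a : ℕ) : ℤ) (T x) * fr K p (s + ((a' : ℕ) : ℤ)) (T x))
      rw [map_mul, fr_add]
      ring
    have h2 : Eqv p (fun x => ∑ q ∈ I, coef b q * (fr K p (α q) (T x) * fr K p (β q) (T x)))
        (fun x => ∑ q ∈ I, fr K p (-(min (α q) (β q))) (coef b q) *
          (T x * fr K p (((β q - α q).natAbs : ℕ) : ℤ) (T x))) := by
      refine Eqv.sum _ fun q _ => ?_
      have h3 := eqv_fr (p := p) (((isPerf_const (p := p) (ι := κ) (coef b q)).mul
        ((hT.twist (α q)).mul (hT.twist (β q))))) (-(min (α q) (β q)))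
      refine h3.symm.trans (Eqv.of_eq fun x => ?_)
      generalize coef b q = w
      rw [map_mul, map_mul, ← fr_add, ← fr_add]
      congr 1
      rcases le_total (α q) (β q) with h | h
      · have e1 : (((β q - α q).natAbs : ℕ) : ℤ) = -(α q) + β q := by omega
        rw [min_eq_left h, neg_add_cancel, fr_zero, e1]
      · have e1 : (((β q - α q).natAbs : ℕ) : ℤ) = -(β q) + α q := by omega
        rw [min_eq_right h, neg_add_cancel, fr_zero, mul_comm, e1]
    rw [h1]
    refine h2.trans (Eqv.of_eq fun x => ?_)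
    rw [← Finset.sum_fiberwise_of_maps_to (t := D) (g := fun q => (β q - α q).natAbs)]
    · refine Finset.sum_eq_zero fun e he => ?_
      have h3 : ∑ q ∈ I with (β q - α q).natAbs = e, fr K p (-(min (α q) (β q))) (coef b q) *
            (T x * fr K p (((β q - α q).natAbs : ℕ) : ℤ) (T x)) =
          (∑ q ∈ I with (β q - α q).natAbs = e, fr K p (-(min (α q) (β q))) (coef b q)) *
            (T x * fr K p ((e : ℕ) : ℤ) (T x)) := by
        rw [Finset.sum_mul]
        refine Finset.sum_congr rfl fun q hq => ?_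
        rw [(Finset.mem_filter.1 hq).2]
      have h4 : ∑ q ∈ I with (β q - α q).natAbs = e, fr K p (-(min (α q) (β q))) (coef b q) = 0 :=
        hb ⟨e, he⟩
      rw [h3, h4, zero_mul]
    · intro q hq
      simp only [hI, Finset.mem_product, Finset.mem_Icc] at hq
      rw [hD, Finset.mem_range]
      have h5 := q.2.1.2
      have h6 := q.2.2.2.2
      have h7 : α q = ((q.2.1 : ℕ) : ℤ) := rfl
      have h8 : β q = q.2.2.1 + ((q.2.2.2 : ℕ) : ℤ) := rfl
      omega

end Pool.Agent.H856.AQ
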