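import Pool.Agent.H856.AQ.Poly

/-!
# Unirationality
-/

set_option autoImplicit false
set_option linter.unusedSectionVars false
set_option linter.style.haveILetI false

namespace Pool.Agent.H856.AQ

open MvPolynomial

/-- The coordinate ring `K[x_1, ..., x_m, z] / (z ^ p - z - f)` of the Artin-Schreier covering
`z ^ p - z = f(x_1, ..., x_m)` of affine space. -/
abbrev CoordRing {K : Type*} [Field K] (p : ℕ) {m : ℕ} (f : MvPolynomial (Fin m) K) : Type _ :=
  AdjoinRoot (Polynomial.X ^ p - Polynomial.X - Polynomial.C f : Polynomial (MvPolynomial (Fin m) K))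

/-- The covering `z ^ p - z = f(x_1, ..., x_m)` is unirational: its function field embeds into the
field of rational functions in `m` variables. -/
def Unirational {K : Type*} [Field K] (p : ℕ) {m : ℕ} (f : MvPolynomial (Fin m) K) : Prop :=
  ∃ ψ : CoordRing p f →ₐ[K] FractionRing (MvPolynomial (Fin m) K), Function.Injective ψ

variable {K : Type*} [Field K] [IsAlgClosed K] {p : ℕ} [hp : Fact p.Prime] [CharP K p]

theorem aeval_congr_supported {m : ℕ} {A : Type*} [CommRing A] [Algebra K A] {s : Set (Fin m)}
    {P : MvPolynomial (Fin m) K} (hP : P ∈ supported K s) {u v : Fin m → A}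
    (h : ∀ i ∈ s, u i = v i) : aeval u P = aeval v P := by
  rw [mem_supported] at hP
  rw [aeval_def, aeval_def]
  exact eval₂Hom_congr' rfl (fun i hi _ => h i (hP hi)) rfl

theorem monic_as {m : ℕ} (f : MvPolynomial (Fin m) K) :
    (Polynomial.X ^ p - Polynomial.X - Polynomial.C f :
      Polynomial (MvPolynomial (Fin m) K)).Monic ∧
    (Polynomial.X ^ p - Polynomial.X - Polynomial.C f :
      Polynomial (MvPolynomial (Fin m) K)).natDegree = p := by
  have h3 : (Polynomial.X ^ p - Polynomial.X - Polynomial.C f :
      Polynomial (MvPolynomial (Fin m) K)) =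
      Polynomial.X ^ p - (Polynomial.X + Polynomial.C f) := by ring
  rw [h3]
  constructor
  · apply Polynomial.monic_X_pow_sub
    rw [Polynomial.degree_X_add_C]
    exact_mod_cast hp.out.one_lt
  · rw [Polynomial.natDegree_sub_eq_left_of_natDegree_lt, Polynomial.natDegree_X_pow]
    rw [Polynomial.natDegree_X_pow]
    rw [Polynomial.natDegree_X_add_C]
    exact hp.out.one_lt

theorem unirational_of {m : ℕ} {f g h D R : MvPolynomial (Fin m) K}
    {φ : Fin m → MvPolynomial (Fin m) K} (hφ : Function.Surjective (polyMap φ))
    (heq : aeval φ f = g + (h ^ p - h)) {a : Fin m} (hD0 : D ≠ 0)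
    (hD : D ∈ supported K ({a}ᶜ : Set (Fin m))) (hR : R ∈ supported K ({a}ᶜ : Set (Fin m)))
    (hg : g = X a * D + R) : Unirational p f := by
  classical
  haveI : ExpChar K p := ExpChar.prime hp.out
  let S := Localization.Away D
  haveI : CharP (MvPolynomial (Fin m) K) p := inferInstance
  haveI hSp : ExpChar S p := by
    have hinj : Function.Injective (algebraMap (MvPolynomial (Fin m) K) S) :=
      IsLocalization.injective S (powers_le_nonZeroDivisors_of_noZeroDivisors hD0)
    haveI : ExpChar (MvPolynomial (Fin m) K) p := ExpChar.prime hp.out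
    exact expChar_of_injective_ringHom hinj p
  -- the parametrization
  let ρ : Fin m → S := fun i =>
    if i = a then algebraMap (MvPolynomial (Fin m) K) S (X a ^ p - X a - R) * IsLocalization.Away.invSelf D
    else algebraMap (MvPolynomial (Fin m) K) S (X i)
  have hsupp : ∀ Q ∈ supported K ({a}ᶜ : Set (Fin m)), aeval ρ Q = algebraMap (MvPolynomial (Fin m) K) S Q := by
    intro Q hQ
    rw [aeval_congr_supported hQ (v := fun i => algebraMap (MvPolynomial (Fin m) K) S (X i)) (fun i hi => by
      have hne : i ≠ a := hi
      simp [ρ, hne])]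
    have : (aeval (fun i => algebraMap (MvPolynomial (Fin m) K) S (X i)) : (MvPolynomial (Fin m) K) →ₐ[K] S) = IsScalarTower.toAlgHom K (MvPolynomial (Fin m) K) S := by
      apply MvPolynomial.algHom_ext
      intro i
      rw [aeval_X]
      rfl
    rw [this]
    rfl
  have hgρ : aeval ρ g = (algebraMap (MvPolynomial (Fin m) K) S (X a)) ^ p - algebraMap (MvPolynomial (Fin m) K) S (X a) := by
    rw [hg, map_add, map_mul, aeval_X, hsupp D hD, hsupp R hR]
    have h1 : ρ a = algebraMap (MvPolynomial (Fin m) K) S (X a ^ p - X a - R) * IsLocalization.Away.invSelf D := by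
      simp [ρ]
    rw [h1]
    have h2 := IsLocalization.Away.mul_invSelf (S := S) D
    have h3 : algebraMap (MvPolynomial (Fin m) K) S (X a ^ p - X a - R) * IsLocalization.Away.invSelf D *
        algebraMap (MvPolynomial (Fin m) K) S D = algebraMap (MvPolynomial (Fin m) K) S (X a ^ p - X a - R) := by
      linear_combination algebraMap (MvPolynomial (Fin m) K) S (X a ^ p - X a - R) * h2
    rw [h3, ← map_add, sub_add_cancel, map_sub, map_pow]
  let i₀ : (MvPolynomial (Fin m) K) →ₐ[K] S := aeval (fun i => aeval ρ (φ i))
  have hi₀ : ∀ Q : (MvPolynomial (Fin m) K), i₀ Q = aeval ρ (aeval φ Q) := by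
    intro Q
    have : i₀ = (aeval ρ).comp (aeval φ) := by
      apply MvPolynomial.algHom_ext
      intro i
      simp [i₀]
    rw [this]
    rfl
  let z₀ : S := algebraMap (MvPolynomial (Fin m) K) S (X a) + aeval ρ h
  have hz₀ : Polynomial.eval₂ (i₀ : (MvPolynomial (Fin m) K) →+* S) z₀
      (Polynomial.X ^ p - Polynomial.X - Polynomial.C f) = 0 := by
    rw [Polynomial.eval₂_sub, Polynomial.eval₂_sub, Polynomial.eval₂_pow, Polynomial.eval₂_X,
      Polynomial.eval₂_C]
    show z₀ ^ p - z₀ - i₀ f = 0
    rw [hi₀, heq, map_add, map_sub, map_pow, hgρ]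
    show (algebraMap (MvPolynomial (Fin m) K) S (X a) + aeval ρ h) ^ p - (algebraMap (MvPolynomial (Fin m) K) S (X a) + aeval ρ h) - _ = 0
    rw [add_pow_expChar]
    ring
  let ψ : CoordRing p f →ₐ[K] S := AdjoinRoot.liftAlgHom _ i₀ z₀ hz₀
  -- values at points
  have hval : ∀ (x : Fin m → K) (z : K), eval x D ≠ 0 → z ^ p - z = eval x g →
      ∃ ε : S →+* K, ∀ Q : Polynomial (MvPolynomial (Fin m) K), ε (ψ (AdjoinRoot.mk _ Q)) =
        (Q.map (eval (polyMap φ x))).eval (z + eval x h) := by
    intro x z hx hz
    let w : Fin m → K := Function.update x a z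
    have hw : ∀ Q ∈ supported K ({a}ᶜ : Set (Fin m)), eval w Q = eval x Q := by
      intro Q hQ
      have := aeval_congr_supported (A := K) hQ (u := w) (v := x) (fun i hi => by
        have hne : i ≠ a := hi
        exact Function.update_of_ne hne _ _)
      simpa using this
    have hwD : IsUnit (eval w D) := by
      rw [hw D hD]
      exact isUnit_iff_ne_zero.2 hx
    let ε : S →+* K := IsLocalization.Away.lift D hwD
    have hε : ∀ Q : (MvPolynomial (Fin m) K), ε (algebraMap (MvPolynomial (Fin m) K) S Q) = eval w Q := fun Q =>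
      IsLocalization.Away.lift_eq D hwD Q
    have hεinv : ε (IsLocalization.Away.invSelf D) = (eval x D)⁻¹ := by
      have h1 := congrArg ε (IsLocalization.Away.mul_invSelf (S := S) D)
      rw [map_mul, hε, hw D hD, map_one] at h1
      exact eq_inv_of_mul_eq_one_right h1
    have hερ : ∀ i, ε (ρ i) = x i := by
      intro i
      by_cases h : i = a
      · subst h
        have h1 : ρ i = algebraMap (MvPolynomial (Fin m) K) S (X i ^ p - X i - R) * IsLocalization.Away.invSelf D := by
          simp [ρ]
        rw [h1, map_mul, hεinv, hε, map_sub, map_sub, map_pow, eval_X, hw R hR]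
        have h2 : w i = z := Function.update_self _ _ _
        rw [h2, hz, hg, map_add, map_mul, eval_X, add_sub_cancel_right, mul_assoc,
          mul_inv_cancel₀ hx, mul_one]
      · have h1 : ρ i = algebraMap (MvPolynomial (Fin m) K) S (X i) := by simp [ρ, h]
        rw [h1, hε, eval_X]
        exact Function.update_of_ne h _ _
    have hεQ : ∀ Q : (MvPolynomial (Fin m) K), ε (aeval ρ Q) = eval x Q := by
      intro Q
      induction Q using MvPolynomial.induction_on with
      | C c =>
        rw [aeval_C, eval_C]
        have : (algebraMap K S) c = algebraMap (MvPolynomial (Fin m) K) S (C c) := rfl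
        rw [this, hε, eval_C]
      | add P Q hP hQ => simp only [map_add, hP, hQ]
      | mul_X P i hP => simp only [map_mul, hP, aeval_X, eval_X, hερ]
    refine ⟨ε, fun Q => ?_⟩
    show ε (Polynomial.eval₂ (i₀ : (MvPolynomial (Fin m) K) →+* S) z₀ Q) = _
    rw [Polynomial.hom_eval₂, Polynomial.eval_map]
    congr 1
    · apply MvPolynomial.ringHom_ext
      · intro c
        show ε (i₀ (C c)) = _
        rw [hi₀, hεQ, eval_polyMap]
      · intro i
        show ε (i₀ (X i)) = _
        rw [hi₀, hεQ, eval_polyMap]
    · show ε (algebraMap (MvPolynomial (Fin m) K) S (X a) + aeval ρ h) = _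
      rw [map_add, hε, hεQ, eval_X]
      congr 1
      exact Function.update_self _ _ _
  -- injectivity
  have hψ : Function.Injective ψ := by
    rw [injective_iff_map_eq_zero]
    intro b hb
    obtain ⟨Q, rfl⟩ := AdjoinRoot.mk_surjective b
    obtain ⟨hmon, hdeg⟩ := monic_as (p := p) f
    set F := (Polynomial.X ^ p - Polynomial.X - Polynomial.C f : Polynomial (MvPolynomial (Fin m) K)) with hF
    have hQ' : AdjoinRoot.mk F Q = AdjoinRoot.mk F (Q %ₘ F) := by
      rw [AdjoinRoot.mk_eq_mk]
      refine ⟨Q /ₘ F, ?_⟩
      have := Polynomial.modByMonic_add_div Q F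
      linear_combination - this
    rw [hQ'] at hb ⊢
    set Q' := Q %ₘ F with hQ'def
    have hdegQ : Q'.natDegree < p := by
      have h1 := Polynomial.natDegree_modByMonic_lt Q hmon (by
        intro h1
        rw [h1, Polynomial.natDegree_one] at hdeg
        exact hp.out.ne_zero hdeg.symm)
      rwa [hdeg] at h1
    suffices hz : Q' = 0 by rw [hz, map_zero]
    ext1 j
    rw [Polynomial.coeff_zero]
    -- the coefficient vanishes at all points
    have hpt : ∀ x : Fin m → K, eval x D ≠ 0 → eval (polyMap φ x) (Q'.coeff j) = 0 := by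
      intro x hx
      obtain ⟨z, hz⟩ : ∃ z : K, z ^ p - z = eval x g := by
        obtain ⟨u, _, hu⟩ := eqv_const (K := K) (p := p) (ι := Fin 0) (eval x g)
        exact ⟨u Fin.elim0, by rw [← hu, sub_zero]⟩
      have hroot : ∀ i : Fin p, (Q'.map (eval (polyMap φ x))).eval
          ((z + ((i : ℕ) : K)) + eval x h) = 0 := by
        intro i
        obtain ⟨ε, hε⟩ := hval x (z + ((i : ℕ) : K)) hx (by
          rw [add_pow_expChar]
          have h1 : ((i : ℕ) : K) ^ p = ((i : ℕ) : K) := by
            have h2 := map_natCast (frobenius K p) (i : ℕ)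
            rwa [frobenius_def] at h2
          rw [h1]
          linear_combination hz)
        have h3 := hε Q'
        rw [hb, map_zero] at h3
        exact h3.symm
      have hinj : Function.Injective (fun i : Fin p => (z + ((i : ℕ) : K)) + eval x h) := by
        intro i j hij
        have h1 : ((i : ℕ) : K) = ((j : ℕ) : K) := by
          have h2 : (z + ((i : ℕ) : K)) + eval x h = (z + ((j : ℕ) : K)) + eval x h := hij
          linear_combination h2
        have h2 := (CharP.natCast_eq_natCast K p).1 h1
        apply Fin.ext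
        exact Nat.ModEq.eq_of_lt_of_lt h2 i.2 j.2
      have hzero : Q'.map (eval (polyMap φ x)) = 0 := by
        apply Polynomial.eq_zero_of_natDegree_lt_card_of_eval_eq_zero _ hinj hroot
        rw [Fintype.card_fin]
        exact lt_of_le_of_lt Polynomial.natDegree_map_le hdegQ
      have := congrArg (fun q => Polynomial.coeff q j) hzero
      simpa [Polynomial.coeff_map] using this
    have hprod : aeval φ (Q'.coeff j) * D = 0 := by
      apply MvPolynomial.funext
      intro x
      rw [map_mul, eval_polyMap, map_zero]
      by_cases hx : eval x D = 0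
      · rw [hx, mul_zero]
      · rw [hpt x hx, zero_mul]
    have hc0 := (mul_eq_zero.1 hprod).resolve_right hD0
    apply MvPolynomial.funext
    intro y
    obtain ⟨x, rfl⟩ := hφ y
    rw [← eval_polyMap, hc0, map_zero, map_zero]
  -- the field of rational functions
  have hu : IsUnit (algebraMap (MvPolynomial (Fin m) K) (FractionRing (MvPolynomial (Fin m) K)) D) := by
    rw [isUnit_iff_ne_zero]
    intro h0
    exact hD0 ((IsFractionRing.injective (MvPolynomial (Fin m) K) (FractionRing (MvPolynomial (Fin m) K))) (by rw [h0, map_zero]))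
  let κ : S →ₐ[K] FractionRing (MvPolynomial (Fin m) K) :=
    { IsLocalization.Away.lift D hu with
      commutes' := fun c => by
        have h1 : (algebraMap K S) c = algebraMap (MvPolynomial (Fin m) K) S (C c) := rfl
        show IsLocalization.Away.lift D hu ((algebraMap K S) c) = _
        rw [h1, IsLocalization.Away.lift_eq]
        rfl }
  have hκ : Function.Injective κ := by
    show Function.Injective (IsLocalization.Away.lift D hu)
    have h1 := IsLocalization.lift_injective_iff (M := Submonoid.powers D) (S := S)
      (g := algebraMap (MvPolynomial (Fin m) K) (FractionRing (MvPolynomial (Fin m) K))) (hg := fun y => by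
        obtain ⟨n, hn⟩ := y.2
        rw [← hn, map_pow]
        exact hu.pow n)
    refine h1.2 fun u v => ?_
    rw [(IsLocalization.injective S (powers_le_nonZeroDivisors_of_noZeroDivisors hD0)).eq_iff,
      (IsFractionRing.injective (MvPolynomial (Fin m) K) (FractionRing (MvPolynomial (Fin m) K))).eq_iff]
  exact ⟨κ.comp ψ, hκ.comp hψ⟩

end Pool.Agent.H856.AQ
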